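import Pool.Agent.Work.MP_d2308b_lc.H94.Count

namespace Pool.Agent.Work.MP_d2308b_lc.H94

universe u
open Cardinal Set

variable {κ : Cardinal.{u}}

/-- every club contains an unbounded set all of whose initial segments belong to a family of
size at most `κ⁺` -/
def ClubCovering (κ : Cardinal.{u}) : Prop :=
  ∃ L : Set (Set (Idx κ)), #L ≤ Order.succ κ ∧
    ∀ D : Set (Idx κ), IsClub D → ∃ c ⊆ D, IsCofinal c ∧ ∀ a, c ∩ Iio a ∈ L

theorem isClub_closure_points (hκ : ℵ₀ ≤ κ) (f : Idx κ → Idx κ) :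
    IsClub {δ : Idx κ | ∀ x < δ, f x < δ} := by
  constructor
  · intro s hs hs0 _ a ha x hx
    obtain ⟨b, hb, hxb⟩ : ∃ b ∈ s, x < b := by
      by_contra hcon
      push Not at hcon
      exact absurd (ha.2 (fun y hy => hcon y hy)) (not_le.2 hx)
    exact (hs hb x hxb).trans_le (ha.1 hb)
  · intro a
    have hstep : ∀ b : Idx κ, ∃ b', b < b' ∧ ∀ x ≤ b, f x < b' := by
      intro b
      obtain ⟨b', hb'⟩ := idx_bdd hκ (insert b (f '' (Iic b))) (by
        refine (Cardinal.mk_insert_le).trans ?_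
        exact Cardinal.add_le_of_le hκ (Cardinal.mk_image_le.trans (card_Iic_idx hκ b))
          (one_le_aleph0.trans hκ))
      exact ⟨b', hb' b (Or.inl rfl), fun x hx => hb' _ (Or.inr ⟨x, hx, rfl⟩)⟩
    choose s hs1 hs2 using hstep
    let g : ℕ → Idx κ := fun n => s^[n] a
    have hg : ∀ n, g (n+1) = s (g n) := fun n => Function.iterate_succ_apply' s n a
    obtain ⟨b, hb⟩ : ∃ b, ∀ x ∈ range g, x < b :=
      idx_bdd hκ (range g) ((Set.countable_range g).le_aleph0.trans hκ)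
    have hne : {b : Idx κ | ∀ n, g n < b}.Nonempty := ⟨b, fun n => hb _ ⟨n, rfl⟩⟩
    refine ⟨WellFounded.min wellFounded_lt _ hne, ?_, ?_⟩
    · intro x hx
      have hmin := WellFounded.min_mem wellFounded_lt _ hne
      obtain ⟨n, hn⟩ : ∃ n, x ≤ g n := by
        by_contra hcon
        push Not at hcon
        exact WellFounded.not_lt_min wellFounded_lt (s := {b : Idx κ | ∀ n, g n < b}) hcon hx
      refine (hs2 (g n) x hn).trans ?_
      rw [← hg]
      exact hmin (n+1)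
    · exact (WellFounded.min_mem wellFounded_lt _ hne 0).le

theorem slalom_of_club (hκ : ℵ₀ ≤ κ) (H : ClubCovering κ) : SlalomHyp κ (Order.succ κ) := by
  classical
  have hsk : ℵ₀ ≤ Order.succ κ := hκ.trans (Order.le_succ κ)
  obtain ⟨L, hL, hcov⟩ := H
  -- the slalom given by a set
  let Φ : Set (Idx κ) → Idx κ → Set (Idx κ) := fun c x => {y | ∀ w ∈ c, x < w → y < w}
  refine ⟨(fun p : Set (Idx κ) × Idx κ => fun x => {y | x < p.2 ∧ y ∈ Φ p.1 x}) '' (L ×ˢ Set.univ), ?_, ?_⟩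
  · refine Cardinal.mk_image_le.trans ?_
    rw [Cardinal.mk_setProd, Cardinal.mk_univ, card_idx]
    exact Cardinal.mul_le_of_le hsk hL le_rfl
  · intro f
    obtain ⟨c, hcD, hc, hcL⟩ := hcov _ (isClub_closure_points hκ f)
    -- strict next element of `c`
    have hnext : ∀ x : Idx κ, ∃ w ∈ c, x < w := by
      intro x
      obtain ⟨y, hy⟩ := exists_idx_gt hκ x
      obtain ⟨w, hw, hyw⟩ := hc y
      exact ⟨w, hw, hy.trans_le hyw⟩
    refine ⟨Φ c, fun x => ⟨fun w hw hxw => hcD hw x hxw, ?_⟩, fun a => ?_⟩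
    · obtain ⟨w, hw, hxw⟩ := hnext x
      have hsub : Φ c x ⊆ Iio w := fun y hy => hy w hw hxw
      exact (Cardinal.mk_le_mk_of_subset hsub).trans_lt ((card_Iio_idx w).trans_lt (Order.lt_succ κ))
    · obtain ⟨w, hw, haw⟩ := hnext a
      obtain ⟨b, hb⟩ := exists_idx_gt hκ w
      refine ⟨(c ∩ Iio b, a), ⟨hcL b, trivial⟩, ?_⟩
      funext x
      ext y
      constructor
      · rintro ⟨hxa, hy⟩
        refine ⟨hxa, fun v hv hxv => ?_⟩
        rcases lt_or_ge v b with h | h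
        · exact hy v ⟨hv, h⟩ hxv
        · exact (hy w ⟨hw, hb⟩ (hxa.trans haw)).trans (hb.trans_le h)
      · rintro ⟨hxa, hy⟩
        exact ⟨hxa, fun v hv hxv => hy v hv.1 hxv⟩

end Pool.Agent.Work.MP_d2308b_lc.H94
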