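import Pool.Agent.Work.MP_d2308b_lc.H94.MainB

namespace Pool.Agent.Work.MP_d2308b_lc.H94

universe u
open Cardinal Set

variable {κ : Cardinal.{u}}

theorem not_cofinal_of_lt_cof {K : Type u} [LinearOrder K] (X : Set K) (hX : #X < Order.cof K) :
    ∃ j, ∀ x ∈ X, x < j := by
  by_contra h
  push Not at h
  have h1 : IsCofinal X := by
    intro a
    obtain ⟨x, hx, hx'⟩ := h a
    exact ⟨x, hx, hx'⟩
  exact absurd (Order.cof_le h1) (not_le.2 hX)

/-- In the strong limit case there are at most `κ⁺` paths of length `δ` if the cofinality of `δ` is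
different from the cofinality of `κ`. -/
theorem few_paths (hκ : ℵ₀ ≤ κ) (hsl : ∀ x < κ, 2 ^ x < κ) (T : Type u) [PartialOrder T]
    (hT : #T = Order.succ κ) {δ : Ordinal.{u}} (hδ : δ < (Order.succ κ).ord)
    (hcof : δ.cof ≠ κ.ord.cof) : #{C : Set T | IsPath C δ} ≤ Order.succ κ := by
  classical
  have hsk : ℵ₀ ≤ Order.succ κ := hκ.trans (Order.le_succ κ)
  obtain ⟨e⟩ := Cardinal.eq.1 (hT.trans (card_idx (κ := κ)).symm)
  let K : Type u := κ.ord.ToType
  have hKcard : #K = κ := Cardinal.mk_ord_toType κ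
  have hc : ∀ α : Idx κ, ∃ c : Iio α → K, Function.Injective c := by
    intro α
    have : #(Iio α) ≤ #K := by rw [hKcard]; exact card_Iio_idx α
    obtain ⟨c⟩ := this
    exact ⟨c, c.injective⟩
  choose c hcinj using hc
  have hKlim : ∀ x : K, ∃ y, x < y := by
    intro x
    have : #({x} : Set K) < Order.cof K := by
      rw [Cardinal.mk_singleton]
      show 1 < Order.cof κ.ord.ToType
      rw [Ordinal.cof_toType]
      exact Ordinal.one_lt_cof_iff.2 (Cardinal.isSuccLimit_ord hκ)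
    obtain ⟨j, hj⟩ := not_cofinal_of_lt_cof _ this
    exact ⟨j, hj x rfl⟩
  -- the coding
  let Φ : (Σ _ : Idx κ, Σ j : K, Set (Iio j)) → Set T := fun p =>
    {t | ∃ d, ∃ h : e d < p.1, ∃ h' : c p.1 ⟨e d, h⟩ < p.2.1, (⟨c p.1 ⟨e d, h⟩, h'⟩ : Iio p.2.1) ∈ p.2.2 ∧ t ≤ d}
  have hrange : {C : Set T | IsPath C δ} ⊆ range Φ := by
    rintro C ⟨hch, hlow, ⟨iso⟩⟩
    have hcofC : Order.cof C = δ.cof := by
      rw [← Ordinal.cof_toType]
      exact (iso.trans Ordinal.ToType.mk).cof_congr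
    have hcardC : #C ≤ κ := by
      have h1 : #C = #δ.ToType := Cardinal.mk_congr (iso.trans Ordinal.ToType.mk).toEquiv
      rw [h1, Cardinal.mk_toType]
      exact Order.lt_succ_iff.1 (Cardinal.lt_ord.1 hδ)
    have hlin : ∀ a b : C, a ≤ b ∨ b < a := by
      intro a b
      by_cases h : a = b
      · exact Or.inl h.le
      · rcases hch a.2 b.2 (fun h' => h (Subtype.ext h')) with h1 | h1
        · exact Or.inl h1
        · exact Or.inr (lt_of_le_of_ne h1 (fun h' => h h'.symm))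
    obtain ⟨D, hDcof, hDcard⟩ := Order.exists_cof_eq C
    obtain ⟨α, hα⟩ := idx_bdd hκ ((fun x : C => e x.1) '' univ) (Cardinal.mk_image_le.trans (by
      rw [Cardinal.mk_univ]; exact hcardC))
    have hα' : ∀ x : C, e x.1 < α := fun x => hα _ ⟨x, trivial, rfl⟩
    let w : C → K := fun x => c α ⟨e x.1, hα' x⟩
    -- it suffices to find j
    suffices hj : ∃ j : K, ∀ t : C, ∃ x : C, w x < j ∧ t ≤ x by
      obtain ⟨j, hj⟩ := hj
      refine ⟨⟨α, j, {y | ∃ x : C, w x = y.1}⟩, ?_⟩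
      ext t
      constructor
      · rintro ⟨d, h, h', ⟨x, hx⟩, htd⟩
        have h1 : (⟨e x.1, hα' x⟩ : Iio α) = ⟨e d, h⟩ := hcinj α hx
        have h2 : x.1 = d := e.injective (congrArg Subtype.val h1)
        exact hlow htd (h2 ▸ x.2)
      · intro ht
        obtain ⟨x, hx, htx⟩ := hj ⟨t, ht⟩
        exact ⟨x.1, hα' x, hx, ⟨x, rfl⟩, htx⟩
    by_contra hcon
    push Not at hcon
    choose b hb using hcon
    obtain ⟨J, hJ, hJcard⟩ := Order.exists_cof_eq K
    have hcofK : Order.cof K = κ.ord.cof := Ordinal.cof_toType _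
    have h1 : δ.cof ≤ κ.ord.cof := by
      rw [← hcofC, ← hcofK, ← hJcard]
      refine (Order.cof_le (s := b '' J) ?_).trans Cardinal.mk_image_le
      intro t
      obtain ⟨j0, hj0⟩ := hKlim (w t)
      obtain ⟨j, hjJ, hj⟩ := hJ j0
      refine ⟨b j, ⟨j, hjJ, rfl⟩, ?_⟩
      rcases hlin t (b j) with h | h
      · exact h
      · exact absurd h.le (hb j t (hj0.trans_le hj))
    have h2 : δ.cof < κ.ord.cof := lt_of_le_of_ne h1 hcof
    obtain ⟨j, hj⟩ := not_cofinal_of_lt_cof (w '' D) (by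
      refine Cardinal.mk_image_le.trans_lt ?_
      rw [hDcard, hcofC, hcofK]; exact h2)
    obtain ⟨x, hxD, hx⟩ := hDcof (b j)
    exact hb j x (hj _ ⟨x, hxD, rfl⟩) hx
  refine (Cardinal.mk_le_mk_of_subset hrange).trans (Cardinal.mk_range_le.trans ?_)
  rw [Cardinal.mk_sigma]
  refine (Cardinal.sum_le_sum _ (fun _ => Order.succ κ) (fun α => ?_)).trans ?_
  · rw [Cardinal.mk_sigma]
    refine (Cardinal.sum_le_sum _ (fun _ => κ) (fun j => ?_)).trans ?_
    · rw [Cardinal.mk_set]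
      have h1 : #(Iio j) < κ := by
        have := Cardinal.mk_Iio_lt j (by rw [hKcard, Ordinal.type_toType])
        rwa [hKcard] at this
      exact (hsl _ h1).le
    · rw [Cardinal.sum_const', hKcard]
      exact (Cardinal.mul_le_of_le hκ le_rfl le_rfl).trans (Order.le_succ κ)
  · rw [Cardinal.sum_const', card_idx]
    exact Cardinal.mul_le_of_le hsk le_rfl le_rfl

end Pool.Agent.Work.MP_d2308b_lc.H94
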