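import Pool.Agent.Work.MP_d2308b_lc.H94.Tree

namespace Pool.Agent.Work.MP_d2308b_lc.H94

universe u
open Cardinal Set

/-- index set: a well-ordered type of order type `(succ κ).ord` -/
abbrev Idx (κ : Cardinal.{u}) : Type u := (Order.succ κ).ord.ToType

/-- the ordinal below `(succ κ).ord` given by an index -/
noncomputable abbrev Idx.o {κ : Cardinal.{u}} (x : Idx κ) : Ordinal.{u} := x.toOrd.1

variable {κ : Cardinal.{u}}

theorem o_lt_o {x y : Idx κ} : x.o < y.o ↔ x < y := by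
  show x.toOrd < y.toOrd ↔ _
  exact Ordinal.ToType.mk.symm.lt_iff_lt

theorem o_le_o {x y : Idx κ} : x.o ≤ y.o ↔ x ≤ y := by
  show x.toOrd ≤ y.toOrd ↔ _
  exact Ordinal.ToType.mk.symm.le_iff_le

theorem o_inj {x y : Idx κ} : x.o = y.o ↔ x = y := by
  constructor
  · intro h
    exact le_antisymm (o_le_o.1 h.le) (o_le_o.1 h.ge)
  · rintro rfl; rfl

theorem exists_idx {α : Ordinal.{u}} (h : α < (Order.succ κ).ord) : ∃ x : Idx κ, x.o = α := by
  refine ⟨Ordinal.ToType.mk ⟨α, h⟩, ?_⟩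
  simp [Idx.o]

theorem o_lt (x : Idx κ) : x.o < (Order.succ κ).ord := x.toOrd.2

theorem idx_bdd (hκ : ℵ₀ ≤ κ) (X : Set (Idx κ)) (hX : #X ≤ κ) : ∃ a : Idx κ, ∀ x ∈ X, x < a := by
  by_contra h
  push Not at h
  have h1 : IsCofinal X := by
    intro a
    obtain ⟨x, hx, hx'⟩ := h a
    exact ⟨x, hx, hx'⟩
  have h2 := Order.cof_le h1
  rw [Ordinal.cof_toType, (Cardinal.isRegular_succ hκ).cof_ord] at h2
  exact absurd (h2.trans hX) (not_le.2 (Order.lt_succ κ))

theorem card_Iio_idx (x : Idx κ) : #(Iio x) ≤ κ := by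
  have := Cardinal.mk_Iio_lt x (by rw [Cardinal.mk_ord_toType, Ordinal.type_toType])
  rw [Cardinal.mk_ord_toType] at this
  exact Order.lt_succ_iff.1 this

theorem card_idx : #(Idx κ) = Order.succ κ := Cardinal.mk_ord_toType _

/-- a choice of strict upper bound -/
noncomputable def ub (hne : Idx κ) (X : Set (Idx κ)) : Idx κ := by
  classical exact if h : ∃ a, ∀ x ∈ X, x < a then h.choose else hne

theorem lt_ub (hκ : ℵ₀ ≤ κ) (z : Idx κ) (X : Set (Idx κ)) (hX : #X ≤ κ) :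
    ∀ x ∈ X, x < ub z X := by
  classical
  have h := idx_bdd hκ X hX
  unfold ub
  rw [dif_pos h]
  exact h.choose_spec

theorem exists_idx_zero (κ : Cardinal.{u}) : ∃ z : Idx κ, z.o = 0 := by
  refine exists_idx ?_
  rw [← Cardinal.ord_zero, Cardinal.ord_lt_ord]
  exact (zero_le).trans_lt (Order.lt_succ κ)

/-- a long increasing sequence which is sparse with respect to `h` -/
theorem exists_sparse (hκ : ℵ₀ ≤ κ) (h : Idx κ → Idx κ) {ν : Cardinal.{u}} (hν : ν < κ) :
    ∃ a : Idx ν → Idx κ, ∀ i j, i < j → a i < a j ∧ h (a i) < a j := by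
  classical
  obtain ⟨z, -⟩ := exists_idx_zero κ
  let a : Idx ν → Idx κ := WellFoundedLT.fix
    (fun i rec => ub z ({x | ∃ j, ∃ hj : j < i, x = rec j hj} ∪ {x | ∃ j, ∃ hj : j < i, x = h (rec j hj)}))
  have ha : ∀ i, a i = ub z ({x | ∃ j, ∃ _ : j < i, x = a j} ∪ {x | ∃ j, ∃ _ : j < i, x = h (a j)}) := by
    intro i
    exact WellFoundedLT.fix_eq _ i
  refine ⟨a, fun i j hij => ?_⟩
  have hc : #(({x | ∃ k, ∃ _ : k < j, x = a k} ∪ {x | ∃ k, ∃ _ : k < j, x = h (a k)} : Set (Idx κ))) ≤ κ := by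
    have e1 : {x | ∃ k, ∃ _ : k < j, x = a k} = a '' (Iio j) := by
      ext x; constructor
      · rintro ⟨k, hk, rfl⟩; exact ⟨k, hk, rfl⟩
      · rintro ⟨k, hk, rfl⟩; exact ⟨k, hk, rfl⟩
    have e2 : {x | ∃ k, ∃ _ : k < j, x = h (a k)} = (fun k => h (a k)) '' (Iio j) := by
      ext x; constructor
      · rintro ⟨k, hk, rfl⟩; exact ⟨k, hk, rfl⟩
      · rintro ⟨k, hk, rfl⟩; exact ⟨k, hk, rfl⟩
    rw [e1, e2]
    refine (Cardinal.mk_union_le _ _).trans ?_
    have h1 : #(Iio j) ≤ κ := (card_Iio_idx j).trans hν.le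
    exact Cardinal.add_le_of_le hκ (Cardinal.mk_image_le.trans h1) (Cardinal.mk_image_le.trans h1)
  have hb := lt_ub hκ z _ hc
  rw [← ha j] at hb
  exact ⟨hb _ (Or.inl ⟨i, hij, rfl⟩), hb _ (Or.inr ⟨i, hij, rfl⟩)⟩

/-- Kurepa: a coherent `κ⁺`-sequence of nonempty sets of size less than `κ` has a branch. -/
theorem kurepa {T : Type u} [PartialOrder T] [WellFoundedLT T] (hT : IsTree T) (hκ : ℵ₀ ≤ κ)
    (B : Idx κ → Set T) (hlev : ∀ ξ, ∀ t ∈ B ξ, rk t = ξ.o) (hne : ∀ ξ, (B ξ).Nonempty)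
    (hcard : ∀ ξ, #(B ξ) < κ)
    (hcoh : ∀ ξ η, η ≤ ξ → ∀ t ∈ B ξ, ∀ s ≤ t, rk s = η.o → s ∈ B η) :
    ∃ g : Iio (Order.succ κ).ord → T, StrictMono g := by
  classical
  obtain ⟨z, hz⟩ := exists_idx_zero κ
  -- Step 1: a constant size on a large set
  obtain ⟨ν, hν, hI⟩ : ∃ ν < κ, ∀ a : Idx κ, ∃ b, a < b ∧ #(B b) = ν := by
    let f : Idx κ → κ.ord.ToType := fun ξ => Ordinal.ToType.mk ⟨(#(B ξ)).ord, by
      show (#(B ξ)).ord < κ.ord
      rw [Cardinal.ord_lt_ord]; exact hcard ξ⟩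
    obtain ⟨a, ha⟩ := Cardinal.infinite_pigeonhole f (by
      rw [card_idx]; exact hκ.trans (Order.le_succ κ)) (by
      rw [card_idx, (Cardinal.isRegular_succ hκ).cof_ord, Cardinal.mk_ord_toType]
      exact Order.lt_succ κ)
    have hne' : (f ⁻¹' {a}).Nonempty := by
      rw [← Set.nonempty_coe_sort, ← Cardinal.mk_ne_zero_iff, ha, card_idx]
      exact (Order.bot_lt_succ κ).ne'
    obtain ⟨x0, hx0⟩ := hne'
    refine ⟨#(B x0), hcard x0, fun c => ?_⟩
    by_contra hcon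
    push Not at hcon
    have hsub : f ⁻¹' {a} ⊆ Iic c := by
      intro b hb
      by_contra hb'
      refine hcon b (not_le.1 hb') ?_
      have : f b = f x0 := by rw [show f b = a from hb, show f x0 = a from hx0]
      have := Ordinal.ToType.mk.injective this
      have := congrArg Subtype.val this
      exact Cardinal.ord_injective this
    have h1 : #(f ⁻¹' {a}) ≤ #(Iic c) := Cardinal.mk_le_mk_of_subset hsub
    have h2 : #(Iic c) ≤ κ := by
      have : Iic c ⊆ insert c (Iio c) := by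
        intro x hx
        rcases (show x ≤ c from hx).eq_or_lt with h | h
        · exact Or.inl h
        · exact Or.inr h
      refine (Cardinal.mk_le_mk_of_subset this).trans ((Cardinal.mk_insert_le).trans ?_)
      exact Cardinal.add_le_of_le hκ (card_Iio_idx c) (one_le_aleph0.trans hκ)
    rw [ha, card_idx] at h1
    exact absurd (h1.trans h2) (not_le.2 (Order.lt_succ κ))
  -- Step 2: the pruned part
  let P : Idx κ → Set T := fun ξ => {t | t ∈ B ξ ∧ ∀ ζ, ξ ≤ ζ → ∃ t' ∈ B ζ, t ≤ t'}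
  have hPB : ∀ ξ, P ξ ⊆ B ξ := fun ξ t ht => ht.1
  have hext : ∀ ξ ζ, ξ ≤ ζ → ∀ t ∈ P ξ, ∃ t' ∈ P ζ, t ≤ t' := by
    intro ξ ζ hξζ t ht
    by_contra hcon
    push Not at hcon
    have h1 : ∀ t' : B ζ, t ≤ t'.1 → ∃ b, ζ ≤ b ∧ ∀ t'' ∈ B b, ¬ t'.1 ≤ t'' := by
      intro t' htt'
      by_contra h2
      push Not at h2
      exact hcon t'.1 ⟨t'.2, fun b hb => h2 b hb⟩ htt'
    let F : B ζ → Idx κ := fun t' => if h : t ≤ t'.1 then (h1 t' h).choose else z
    obtain ⟨b, hb⟩ := idx_bdd hκ (range F) ((Cardinal.mk_range_le).trans (hcard ζ).le)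
    obtain ⟨t'', ht'', htt''⟩ := ht.2 (max b ζ) (hξζ.trans (le_max_right _ _))
    have hr : rk t'' = (max b ζ).o := hlev _ _ ht''
    have hζr : ζ.o ≤ rk t'' := by rw [hr]; exact o_le_o.2 (le_max_right _ _)
    have ht' : pr t'' ζ.o ∈ B ζ := hcoh _ _ (le_max_right _ _) t'' ht'' _ (pr_le _ _) (rk_pr hζr)
    have htt' : t ≤ pr t'' ζ.o := by
      rcases hT.comp_le htt'' (pr_le t'' ζ.o) with h | h
      · exact h
      · rcases h.eq_or_lt with h | h
        · exact h.ge
        · have h3 := rk_lt h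
          rw [rk_pr hζr, hlev ξ t ht.1] at h3
          exact absurd (o_lt_o.1 h3) (not_lt.2 hξζ)
    have h4 := (h1 ⟨_, ht'⟩ htt').choose_spec
    have h5 : F ⟨_, ht'⟩ = (h1 ⟨_, ht'⟩ htt').choose := by
      simp only [F]; rw [dif_pos htt']
    have h6 : F ⟨_, ht'⟩ < b := hb _ ⟨_, rfl⟩
    rw [← h5] at h4
    have h7 : (F ⟨_, ht'⟩).o ≤ rk t'' := by
      rw [hr]; exact o_le_o.2 (h6.le.trans (le_max_left _ _))
    refine h4.2 (pr t'' (F ⟨_, ht'⟩).o) (hcoh _ _ (h6.le.trans (le_max_left _ _)) t'' ht'' _ (pr_le _ _) (rk_pr h7)) ?_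
    rcases hT.comp_le (pr_le t'' ζ.o) (pr_le t'' (F ⟨_, ht'⟩).o) with h | h
    · exact h
    · rcases h.eq_or_lt with h | h
      · exact h.ge
      · have h8 := rk_lt h
        rw [rk_pr h7, rk_pr hζr] at h8
        exact absurd (o_lt_o.1 h8) (not_lt.2 h4.1)
  have hdown : ∀ ξ ζ, ζ ≤ ξ → ∀ t ∈ P ξ, ∀ s ≤ t, rk s = ζ.o → s ∈ P ζ := by
    intro ξ ζ hζ t ht s hs hrs
    refine ⟨hcoh ξ ζ hζ t ht.1 s hs hrs, fun b hb => ?_⟩
    rcases le_total ξ b with h | h
    · obtain ⟨t', ht', htt'⟩ := ht.2 b h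
      exact ⟨t', ht', hs.trans htt'⟩
    · have hb' : b.o ≤ rk t := by rw [hlev ξ t ht.1]; exact o_le_o.2 h
      refine ⟨pr t b.o, hcoh ξ b h t ht.1 _ (pr_le _ _) (rk_pr hb'), ?_⟩
      rcases hT.comp_le hs (pr_le t b.o) with h1 | h1
      · exact h1
      · rcases h1.eq_or_lt with h1 | h1
        · exact h1.ge
        · have h8 := rk_lt h1
          rw [rk_pr hb', hrs] at h8
          exact absurd (o_lt_o.1 h8) (not_lt.2 hb)
  have hPne : ∀ ξ, (P ξ).Nonempty := by
    have h0 : (P z).Nonempty := by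
      obtain ⟨r, hr⟩ := hne z
      refine ⟨r, hr, fun ζ hζ => ?_⟩
      obtain ⟨t', ht'⟩ := hne ζ
      refine ⟨t', ht', ?_⟩
      obtain ⟨q, hq⟩ := hT.root
      have hrq : rk r = 0 := by rw [hlev z r hr, hz]
      have h1 : q = r := by
        rcases (hq r).eq_or_lt with h | h
        · exact h
        · have := rk_lt h
          rw [hrq] at this
          exact absurd this (not_lt.2 zero_le)
      rw [← h1]; exact hq t'
    intro ξ
    obtain ⟨r, hr⟩ := h0
    have hzξ : z ≤ ξ := by rw [← o_le_o, hz]; exact zero_le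
    obtain ⟨t', ht', -⟩ := hext z ξ hzξ r hr
    exact ⟨t', ht'⟩
  -- Step 3: splitting
  by_cases hsplit : ∀ ξ, ∀ t ∈ P ξ, ∃ ζ, ξ ≤ ζ ∧ ∃ t₁ ∈ P ζ, ∃ t₂ ∈ P ζ, t ≤ t₁ ∧ t ≤ t₂ ∧ t₁ ≠ t₂
  swap
  · push Not at hsplit
    obtain ⟨ξ, t, ht, huniq⟩ := hsplit
    have hex : ∀ ζ : Idx κ, ∃ s ∈ P ζ, s ≤ t ∨ t ≤ s := by
      intro ζ
      rcases le_total ξ ζ with h | h
      · obtain ⟨t', ht', htt'⟩ := hext ξ ζ h t ht
        exact ⟨t', ht', Or.inr htt'⟩
      · have hb' : ζ.o ≤ rk t := by rw [hlev ξ t ht.1]; exact o_le_o.2 h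
        exact ⟨pr t ζ.o, hdown ξ ζ h t ht _ (pr_le _ _) (rk_pr hb'), Or.inl (pr_le _ _)⟩
    choose s hsP hst using hex
    suffices hmain : ∀ a b : Idx κ, a < b → s a < s b from
      ⟨fun α => s (Ordinal.ToType.mk α), fun α β hαβ =>
        hmain _ _ (Ordinal.ToType.mk.strictMono hαβ)⟩
    intro a b hlt
    have hra : rk (s a) = a.o := hlev _ _ (hsP a).1
    have hrb : rk (s b) = b.o := hlev _ _ (hsP b).1
    have hrab : rk (s a) < rk (s b) := by rw [hra, hrb]; exact o_lt_o.2 hlt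
    rcases le_total b ξ with hb | hb
    · -- both below t
      have key : ∀ c, c ≤ ξ → s c ≤ t := by
        intro c hc
        rcases hst c with h | h
        · exact h
        · rcases h.eq_or_lt with h | h
          · exact h.ge
          · have := rk_lt h
            rw [hlev _ _ (hsP c).1, hlev _ _ ht.1] at this
            exact absurd (o_lt_o.1 this) (not_lt.2 hc)
      exact hT.lt_of_rk (key a (hlt.le.trans hb)) (key b hb) hrab
    · have hbt : t ≤ s b := by
        rcases hst b with h | h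
        · rcases h.eq_or_lt with h | h
          · exact h.ge
          · have := rk_lt h
            rw [hlev _ _ (hsP b).1, hlev _ _ ht.1] at this
            exact absurd (o_lt_o.1 this) (not_lt.2 hb)
        · exact h
      have hab : s a ≤ s b := by
        rcases le_total a ξ with ha | ha
        · rcases hst a with h | h
          · exact h.trans hbt
          · have h1 : t = s a := by
              rcases h.eq_or_lt with h | h
              · exact h
              · have := rk_lt h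
                rw [hlev _ _ (hsP a).1, hlev _ _ ht.1] at this
                exact absurd (o_lt_o.1 this) (not_lt.2 ha)
            rw [← h1]; exact hbt
        · have hat : t ≤ s a := by
            rcases hst a with h | h
            · rcases h.eq_or_lt with h | h
              · exact h.ge
              · have := rk_lt h
                rw [hlev _ _ (hsP a).1, hlev _ _ ht.1] at this
                exact absurd (o_lt_o.1 this) (not_lt.2 ha)
            · exact h
          have hao : a.o ≤ rk (s b) := by rw [hrb]; exact (o_lt_o.2 hlt).le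
          have h1 : pr (s b) a.o ∈ P a := hdown b a hlt.le _ (hsP b) _ (pr_le _ _) (rk_pr hao)
          have h2 : t ≤ pr (s b) a.o := by
            rcases hT.comp_le hbt (pr_le (s b) a.o) with h | h
            · exact h
            · rcases h.eq_or_lt with h | h
              · exact h.ge
              · have h8 := rk_lt h
                rw [rk_pr hao, hlev _ _ ht.1] at h8
                exact absurd (o_lt_o.1 h8) (not_lt.2 ha)
          have h3 : s a = pr (s b) a.o := huniq a ha _ (hsP a) _ h1 hat h2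
          rw [h3]; exact pr_le _ _
      exact lt_of_le_of_ne hab (fun h => by rw [h] at hrab; exact absurd hrab (lt_irrefl _))
  · -- Step 4: the splitting function
    have hh : ∀ ξ, ∃ ζ, ξ ≤ ζ ∧ ∀ t ∈ P ξ, ∃ t₁ ∈ P ζ, ∃ t₂ ∈ P ζ, t ≤ t₁ ∧ t ≤ t₂ ∧ t₁ ≠ t₂ := by
      intro ξ
      haveI : Nonempty (Idx κ) := ⟨z⟩
      choose! Z hZ1 hZ2 using hsplit ξ
      obtain ⟨b, hb⟩ := idx_bdd hκ (Z '' (P ξ)) ((Cardinal.mk_image_le).trans
        ((Cardinal.mk_le_mk_of_subset (hPB ξ)).trans (hcard ξ).le))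
      refine ⟨max b ξ, le_max_right _ _, fun t ht => ?_⟩
      obtain ⟨t₁, h1, t₂, h2, h3, h4, h5⟩ := hZ2 t ht
      have hZb : Z t ≤ max b ξ := (hb _ ⟨t, ht, rfl⟩).le.trans (le_max_left _ _)
      obtain ⟨v₁, hv₁, hv₁'⟩ := hext _ _ hZb t₁ h1
      obtain ⟨v₂, hv₂, hv₂'⟩ := hext _ _ hZb t₂ h2
      refine ⟨v₁, hv₁, v₂, hv₂, h3.trans hv₁', h4.trans hv₂', ?_⟩
      rintro rfl
      exact h5 (hT.eq_of_rk hv₁' hv₂' ((hlev _ _ h1.1).trans (hlev _ _ h2.1).symm))
    choose h hh1 hh2 using hh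
    -- Step 5
    obtain ⟨a, ha⟩ := exists_sparse hκ h hν
    -- Step 6
    have hJ : #(Idx ν) ≤ κ := by
      rw [card_idx]; exact Order.succ_le_of_lt hν
    obtain ⟨b0, hb0⟩ := idx_bdd hκ (range a ∪ range (fun i => h (a i))) (by
      refine (Cardinal.mk_union_le _ _).trans ?_
      exact Cardinal.add_le_of_le hκ ((Cardinal.mk_range_le).trans hJ) ((Cardinal.mk_range_le).trans hJ))
    obtain ⟨β, hβ, hβν⟩ := hI b0
    obtain ⟨t, ht⟩ := hPne β
    have hrt : rk t = β.o := hlev _ _ ht.1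
    have hab : ∀ i, a i < β := fun i => (hb0 _ (Or.inl ⟨i, rfl⟩)).trans hβ
    have hhb : ∀ i, h (a i) < β := fun i => (hb0 _ (Or.inr ⟨i, rfl⟩)).trans hβ
    have hao : ∀ i, (a i).o ≤ rk t := fun i => by rw [hrt]; exact (o_lt_o.2 (hab i)).le
    have hho : ∀ i, (h (a i)).o ≤ rk t := fun i => by rw [hrt]; exact (o_lt_o.2 (hhb i)).le
    have hv : ∀ i, ∃ v ∈ P β, pr t (a i).o ≤ v ∧ ¬ pr t (h (a i)).o ≤ v := by
      intro i
      have h1 : pr t (a i).o ∈ P (a i) := hdown β (a i) (hab i).le t ht _ (pr_le _ _) (rk_pr (hao i))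
      obtain ⟨t₁, ht₁, t₂, ht₂, h3, h4, h5⟩ := hh2 (a i) _ h1
      have hsel : ∃ u ∈ P (h (a i)), pr t (a i).o ≤ u ∧ u ≠ pr t (h (a i)).o := by
        by_cases h6 : t₁ = pr t (h (a i)).o
        · exact ⟨t₂, ht₂, h4, fun h7 => h5 (h6.trans h7.symm)⟩
        · exact ⟨t₁, ht₁, h3, h6⟩
      obtain ⟨u, hu, hu1, hu2⟩ := hsel
      obtain ⟨v, hv, huv⟩ := hext _ β (hhb i).le u hu
      refine ⟨v, hv, hu1.trans huv, fun h7 => hu2 ?_⟩
      exact hT.eq_of_rk huv h7 ((hlev _ _ hu.1).trans (rk_pr (hho i)).symm)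
    choose v hvP hv1 hv2 using hv
    have hinj : Function.Injective (fun i => (⟨v i, (hvP i).1⟩ : B β)) := by
      have key : ∀ i j, i < j → v i ≠ v j := by
        intro i j hij heq
        refine hv2 i ?_
        rw [heq]
        refine le_trans ?_ (hv1 j)
        have h9 := (ha i j hij).2
        exact (hT.lt_of_rk (pr_le _ _) (pr_le _ _) (by
          rw [rk_pr (hho i), rk_pr (hao j)]; exact o_lt_o.2 h9)).le
      intro i j hij
      have hij' : v i = v j := congrArg Subtype.val hij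
      rcases lt_trichotomy i j with h1 | h1 | h1
      · exact absurd hij' (key i j h1)
      · exact h1
      · exact absurd hij'.symm (key j i h1)
    have := Cardinal.mk_le_of_injective hinj
    rw [card_idx, hβν] at this
    exact absurd this (not_le.2 (Order.lt_succ ν))

end Pool.Agent.Work.MP_d2308b_lc.H94
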