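import Pool.Agent.Work.MP_d2308b_lc.H94.Count

namespace Pool.Agent.Work.MP_d2308b_lc.H94

universe u
open Cardinal Set

variable {κ : Cardinal.{u}}

/-- a path of length `δ` is determined by any of its upper bounds -/
theorem path_eq_of_bound {T : Type u} [PartialOrder T] [WellFoundedLT T] (hT : IsTree T)
    {δ : Ordinal.{u}} {C D : Set T} (hC : IsPath C δ) (hD : IsPath D δ) {t : T}
    (hCt : ∀ s ∈ C, s ≤ t) (hDt : ∀ s ∈ D, s ≤ t) : C = D := by
  -- both are `{s ≤ t | rk s < δ}`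
  have key : ∀ E : Set T, IsPath E δ → (∀ s ∈ E, s ≤ t) → E = {s | s ≤ t ∧ rk s < δ} := by
    rintro E ⟨hch, hlow, ⟨iso⟩⟩ hEt
    -- `E` consists of elements of rank given by `iso`
    have hwf : WellFoundedLT E :=
      ⟨InvImage.wf (fun x : E => x.1) (wellFounded_lt (α := T))⟩
    have hrkE : ∀ x : E, rk x = rk x.1 := rk_subtype E hlow
    have hrk : ∀ x : E, rk x = (iso x).1 := by
      intro x
      induction x using WellFoundedLT.induction with
      | ind x ih =>
        apply le_antisymm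
        · by_contra hlt
          push Not at hlt
          obtain ⟨q, hq, hq'⟩ := exists_lt_rk x _ hlt
          rw [ih q hq] at hq'
          exact (iso.strictMono hq).ne (Subtype.ext hq')
        · by_contra hlt
          push Not at hlt
          have hmem : rk x < δ := hlt.trans (iso x).2
          have h1 : iso.symm ⟨rk x, hmem⟩ < x := by
            rw [← iso.lt_iff_lt, OrderIso.apply_symm_apply]
            exact hlt
          have h2 := ih _ h1
          rw [OrderIso.apply_symm_apply] at h2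
          exact (rk_lt h1).ne h2
    ext s
    constructor
    · intro hs
      refine ⟨hEt s hs, ?_⟩
      rw [← hrkE ⟨s, hs⟩, hrk ⟨s, hs⟩]
      exact (iso ⟨s, hs⟩).2
    · rintro ⟨hst, hsδ⟩
      let x := iso.symm ⟨rk s, hsδ⟩
      have h1 : rk x.1 = rk s := by
        rw [← hrkE x, hrk x]
        simp [x]
      have h2 : x.1 = s := hT.eq_of_rk (hEt _ x.2) hst h1
      rw [← h2]; exact x.2
  rw [key C hC hCt, key D hD hDt]

/-- More than `κ⁺` paths of length `δ` give a subset of size at most `κ` which contains more than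
`κ⁺` unbounded paths of length `δ`. -/
theorem local_of_many (hκ : ℵ₀ ≤ κ) (T : Type u) [PartialOrder T] (hT : IsTree T)
    (hcard : #T = Order.succ κ) {δ : Ordinal.{u}} (hδ : δ < (Order.succ κ).ord)
    (hmany : Order.succ κ < #{C : Set T | IsPath C δ}) :
    ∃ A : Set T, #A ≤ κ ∧
      Order.succ κ < #{C : Set T | IsPath C δ ∧ C ⊆ A ∧ ¬ ∃ t, ∀ s ∈ C, s ≤ t} := by
  classical
  have := hT.wellFoundedLT
  have hsk : ℵ₀ ≤ Order.succ κ := hκ.trans (Order.le_succ κ)
  obtain ⟨e⟩ := Cardinal.eq.1 (hcard.trans (card_idx (κ := κ)).symm)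
  by_contra hcon0
  have hcon : ∀ A : Set T, #A ≤ κ →
      #{C : Set T | IsPath C δ ∧ C ⊆ A ∧ ¬ ∃ t, ∀ s ∈ C, s ≤ t} ≤ Order.succ κ :=
    fun A hA => not_lt.1 (fun h => hcon0 ⟨A, hA, h⟩)
  refine absurd hmany (not_lt.2 ?_)
  -- blocks
  let Bl : Idx κ → Set T := fun α => e ⁻¹' (Iio α)
  have hBl : ∀ α, #(Bl α) ≤ κ := by
    intro α
    show #(e ⁻¹' (Iio α)) ≤ κ
    rw [Cardinal.mk_preimage_equiv]
    exact card_Iio_idx α
  have hcover : {C : Set T | IsPath C δ} ⊆
      (⋃ α : Idx κ, {C : Set T | IsPath C δ ∧ C ⊆ Bl α ∧ ¬ ∃ t, ∀ s ∈ C, s ≤ t}) ∪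
        {C : Set T | IsPath C δ ∧ ∃ t, ∀ s ∈ C, s ≤ t} := by
    intro C hC
    by_cases hb : ∃ t, ∀ s ∈ C, s ≤ t
    · exact Or.inr ⟨hC, hb⟩
    · left
      obtain ⟨-, -, ⟨iso⟩⟩ := id hC
      have hcardC : #C ≤ κ := by
        have h1 : #C = #δ.ToType := Cardinal.mk_congr (iso.trans Ordinal.ToType.mk).toEquiv
        rw [h1, Cardinal.mk_toType]
        exact Order.lt_succ_iff.1 (Cardinal.lt_ord.1 hδ)
      obtain ⟨α, hα⟩ := idx_bdd hκ (e '' C) (Cardinal.mk_image_le.trans hcardC)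
      exact Set.mem_iUnion.2 ⟨α, hC, fun s hs => hα _ ⟨s, hs, rfl⟩, hb⟩
  refine (Cardinal.mk_le_mk_of_subset hcover).trans ((Cardinal.mk_union_le _ _).trans ?_)
  refine Cardinal.add_le_of_le hsk ?_ ?_
  · refine (Cardinal.mk_iUnion_le_sum_mk).trans ?_
    refine (Cardinal.sum_le_sum _ (fun _ => Order.succ κ) (fun α => hcon (Bl α) (hBl α))).trans ?_
    rw [Cardinal.sum_const', card_idx]
    exact Cardinal.mul_le_of_le hsk le_rfl le_rfl
  · rw [← hcard]
    have hch : ∀ C : {C : Set T | IsPath C δ ∧ ∃ t, ∀ s ∈ C, s ≤ t}, ∃ t, ∀ s ∈ C.1, s ≤ t :=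
      fun C => C.2.2
    choose b hb using hch
    refine Cardinal.mk_le_of_injective (f := b) ?_
    intro C D hCD
    refine Subtype.ext (path_eq_of_bound hT C.2.1 D.2.1 (hb C) ?_)
    rw [hCD]
    exact hb D

end Pool.Agent.Work.MP_d2308b_lc.H94
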