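import Pool.Agent.Work.MP_d2308b_lc.H94.Slalom

namespace Pool.Agent.Work.MP_d2308b_lc.H94

universe u
open Cardinal Set

variable {κ χ : Cardinal.{u}}

theorem card_Iic_idx (hκ : ℵ₀ ≤ κ) (c : Idx κ) : #(Iic c) ≤ κ := by
  have : Iic c ⊆ insert c (Iio c) := by
    intro x hx
    rcases (show x ≤ c from hx).eq_or_lt with h | h
    · exact Or.inl h
    · exact Or.inr h
  refine (Cardinal.mk_le_mk_of_subset this).trans ((Cardinal.mk_insert_le).trans ?_)
  exact Cardinal.add_le_of_le hκ (card_Iio_idx c) (one_le_aleph0.trans hκ)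

/-- `succ` stays below `κ⁺` -/
theorem exists_idx_gt (hκ : ℵ₀ ≤ κ) (x : Idx κ) : ∃ y : Idx κ, x < y := by
  obtain ⟨a, ha⟩ := idx_bdd hκ {x} (by rw [Cardinal.mk_singleton]; exact one_le_aleph0.trans hκ)
  exact ⟨a, ha x rfl⟩

section

variable {T : Type u} (code : Idx κ × (Idx κ → Set T) → Idx κ)

theorem Ds_eq_Iio (hκ : ℵ₀ ≤ κ) (G : Idx κ → Set T) (ξ : Idx κ) : ∃ a, Ds code G ξ = Iio a := by
  obtain ⟨b, hb⟩ := idx_bdd hκ ((cc code G) '' (Iio ξ)) ((Cardinal.mk_image_le).trans (card_Iio_idx ξ))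
  have hne : {a | a ∉ Ds code G ξ}.Nonempty := by
    refine ⟨b, ?_⟩
    rintro ⟨η, hη, hx⟩
    exact absurd (hb _ ⟨η, hη, rfl⟩) (not_lt.2 hx)
  refine ⟨WellFounded.min wellFounded_lt _ hne, ?_⟩
  have hmin := WellFounded.min_mem wellFounded_lt _ hne
  ext x
  constructor
  · intro hx
    by_contra hcon
    have hcon' : WellFounded.min wellFounded_lt _ hne ≤ x := not_lt.1 hcon
    refine hmin ?_
    obtain ⟨η, hη, hx⟩ := hx
    exact ⟨η, hη, hcon'.trans hx⟩
  · intro hx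
    by_contra hcon
    exact WellFounded.not_lt_min wellFounded_lt (s := {a | a ∉ Ds code G ξ}) hcon hx

theorem cut_eq_of_res (hκ : ℵ₀ ≤ κ) (F : Idx κ → Set T) (ξ : Idx κ) :
    ∃ a, cut code F ξ = res F (Iio a) ∧ cut code F ξ = cut code (res F (Iio a)) ξ := by
  obtain ⟨a, ha⟩ := Ds_eq_Iio code hκ F ξ
  refine ⟨a, ?_, ?_⟩
  · unfold cut; rw [ha]
  · refine (loc code (G := F) (G' := res F (Iio a)) (ξ := ξ) ?_ ξ le_rfl).2.2
    intro x hx
    rw [ha] at hx
    exact (res_apply_of_mem hx).symm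

end

/-- Every tree of height `κ⁺` all of whose levels have size less than `χ` has a branch of
order type `κ⁺`. -/
def TreePropW (κ χ : Cardinal.{u}) : Prop :=
  ∀ (T : Type u) [PartialOrder T], IsTree T →
    (∀ α < (Order.succ κ).ord, ∃ t : T, HasHeight t α) →
    (∀ α < (Order.succ κ).ord, #{t : T | HasHeight t α} < χ) →
    (¬ ∃ t : T, HasHeight t (Order.succ κ).ord) →
    ∃ C : Set T, IsChain (· ≤ ·) C ∧ Nonempty (C ≃o Iio (Order.succ κ).ord)

theorem rk_subtype {T : Type u} [PartialOrder T] [WellFoundedLT T] (D : Set T) (hD : IsLowerSet D)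
    [WellFoundedLT D] : ∀ t : D, rk t = rk t.1 := by
  intro t
  induction t using WellFoundedLT.induction with
  | ind t ih =>
    apply le_antisymm
    · by_contra hlt
      push Not at hlt
      obtain ⟨q, hq, hq'⟩ := exists_lt_rk t _ hlt
      rw [ih q hq] at hq'
      exact (rk_lt (show q.1 < t.1 from hq)).ne hq'
    · by_contra hlt
      push Not at hlt
      obtain ⟨q, hq, hq'⟩ := exists_lt_rk t.1 _ hlt
      have h1 : (⟨q, hD hq.le t.2⟩ : D) < t := hq
      have h2 := ih _ h1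
      have h3 := rk_lt h1
      rw [h2] at h3
      change rk q < rk t at h3
      rw [hq'] at h3
      exact lt_irrefl _ h3

/-- The tree property for widths less than `χ`, applied to a coherent sequence. -/
theorem branch_of_coherent {T : Type u} [PartialOrder T] [WellFoundedLT T] (hT : IsTree T)
    (hTP : TreePropW κ χ)
    (B : Idx κ → Set T) (hlev : ∀ ξ, ∀ t ∈ B ξ, rk t = ξ.o) (hne : ∀ ξ, (B ξ).Nonempty)
    (hcard : ∀ ξ, #(B ξ) < χ)
    (hcoh : ∀ ξ η, η ≤ ξ → ∀ t ∈ B ξ, ∀ s ≤ t, rk s = η.o → s ∈ B η) :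
    ∃ g : Iio (Order.succ κ).ord → T, StrictMono g := by
  let D : Set T := ⋃ ξ, B ξ
  have hD : IsLowerSet D := by
    intro a b hba ha
    obtain ⟨ξ, hξ⟩ := Set.mem_iUnion.1 ha
    have h1 : rk b ≤ ξ.o := by rw [← hlev ξ a hξ]; exact rk_le hba
    obtain ⟨η, hη⟩ := exists_idx (h1.trans_lt (o_lt ξ))
    exact Set.mem_iUnion.2 ⟨η, hcoh ξ η (by rw [← o_le_o, hη]; exact h1) a hξ b hba hη.symm⟩
  have hDT : IsTree D :=
    { root := by
        obtain ⟨r, hr⟩ := hT.root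
        obtain ⟨z, -⟩ := exists_idx_zero κ
        obtain ⟨t, ht⟩ := hne z
        exact ⟨⟨r, hD (hr t) (Set.mem_iUnion.2 ⟨z, ht⟩)⟩, fun t => hr t.1⟩
      comp := fun t a b ha hb => hT.comp t.1 a.1 b.1 ha hb
      wf := by
        intro t
        have : WellFounded ((· < ·) : D → D → Prop) :=
          InvImage.wf (fun x : D => x.1) (wellFounded_lt (α := T))
        exact this.wellFoundedOn }
  have hDwf := hDT.wellFoundedLT
  have hrk : ∀ t : D, rk t = rk t.1 := rk_subtype D hD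
  have hlv : ∀ ξ : Idx κ, ∀ t : D, rk t = ξ.o → t.1 ∈ B ξ := by
    intro ξ t ht
    obtain ⟨η, hη⟩ := Set.mem_iUnion.1 t.2
    have h1 := hlev η _ hη
    rw [← hrk, ht] at h1
    rw [o_inj.1 h1]; exact hη
  have hbr := hTP D hDT (fun α hα => by
      obtain ⟨ξ, hξ⟩ := exists_idx hα
      obtain ⟨t, ht⟩ := hne ξ
      exact ⟨⟨t, Set.mem_iUnion.2 ⟨ξ, ht⟩⟩, (hDT.hasHeight_iff _ _).2 (by rw [hrk, ← hξ]; exact hlev ξ t ht)⟩)
    (fun α hα => by
      obtain ⟨ξ, hξ⟩ := exists_idx hα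
      refine lt_of_le_of_lt ?_ (hcard ξ)
      refine Cardinal.mk_le_of_injective (f := fun t : {t : D | HasHeight t α} => (⟨t.1.1, hlv ξ t.1 (by
        rw [(hDT.hasHeight_iff _ _).1 t.2, hξ])⟩ : B ξ)) ?_
      intro a b hab
      exact Subtype.ext (Subtype.ext (congrArg (fun w : B ξ => w.1) hab)))
    (by
      rintro ⟨t, ht⟩
      have h1 := (hDT.hasHeight_iff _ _).1 ht
      obtain ⟨η, hη⟩ := Set.mem_iUnion.1 t.2
      have h2 := hlev η _ hη
      rw [← hrk, h1] at h2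
      exact (o_lt η).ne h2.symm)
  obtain ⟨g, hg⟩ := strictMono_of_branch hbr
  exact ⟨fun α => (g α).1, fun a b hab => hg hab⟩

/-- Kurepa's theorem: the tree property for widths less than `κ` at `κ⁺`. -/
theorem treePropW_self (hκ : ℵ₀ ≤ κ) : TreePropW κ κ := by
  intro T _ hT hne hcard _
  have := hT.wellFoundedLT
  refine branch_of_strictMono _ (Classical.choose_spec (kurepa hT hκ (fun ξ => {t | rk t = ξ.o})
    (fun _ _ h => h) ?_ ?_ ?_))
  · intro ξ
    obtain ⟨t, ht⟩ := hne ξ.o (o_lt ξ)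
    exact ⟨t, (hT.hasHeight_iff _ _).1 ht⟩
  · intro ξ
    refine lt_of_le_of_lt (Cardinal.mk_le_mk_of_subset ?_) (hcard ξ.o (o_lt ξ))
    intro t ht
    exact (hT.hasHeight_iff _ _).2 ht
  · intro ξ η _ t _ s _ hs
    exact hs

/-- Main construction. -/
theorem main_A (hκ : ℵ₀ ≤ κ) (hTP : TreePropW κ χ) (H : SlalomHyp κ χ) (T : Type u) [PartialOrder T]
    (hT : IsWideAronszajn (Order.succ κ) T) :
    ∃ (S : Type u) (_ : PartialOrder S), IsWideAronszajn (Order.succ κ) S ∧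
      ¬ ∃ f : S → T, StrictMono f := by
  classical
  have hreg := Cardinal.isRegular_succ hκ
  have hsk : ℵ₀ ≤ Order.succ κ := hκ.trans (Order.le_succ κ)
  have := hT.tree.wellFoundedLT
  obtain ⟨z, hz⟩ := exists_idx_zero κ
  obtain ⟨r0, hr0⟩ := hT.tree.root
  have hnoT : ¬ ∃ g : Iio (Order.succ κ).ord → T, StrictMono g := by
    rintro ⟨g, hg⟩
    exact hT.no_branch (branch_of_strictMono g hg)
  obtain ⟨M, hM, hcov⟩ := H.transfer hT.card
  have hMne : M.Nonempty := by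
    obtain ⟨F, _, hF⟩ := hcov (fun _ => r0)
    exact ⟨_, hF z⟩
  -- the coding
  obtain ⟨code, hcode⟩ : ∃ code : Idx κ × (Idx κ → Set T) → Idx κ,
      InjOn code {p | ∃ G ∈ M, ∃ a, p.2 = res G (Iio a)} := by
    have hc : #({p : Idx κ × (Idx κ → Set T) | ∃ G ∈ M, ∃ a, p.2 = res G (Iio a)}) ≤ #(Idx κ) := by
      have hsurj : {p : Idx κ × (Idx κ → Set T) | ∃ G ∈ M, ∃ a, p.2 = res G (Iio a)} ⊆
          range (fun q : Idx κ × (M × Idx κ) => (q.1, res q.2.1.1 (Iio q.2.2))) := by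
        rintro ⟨ξ, G'⟩ ⟨G, hG, a, h⟩
        exact ⟨(ξ, ⟨G, hG⟩, a), Prod.ext rfl h.symm⟩
      refine (Cardinal.mk_le_mk_of_subset hsurj).trans (Cardinal.mk_range_le.trans ?_)
      rw [Cardinal.mk_prod, Cardinal.mk_prod, Cardinal.lift_id, Cardinal.lift_id, Cardinal.lift_id,
        card_idx]
      exact Cardinal.mul_le_of_le hsk le_rfl (Cardinal.mul_le_of_le hsk hM le_rfl)
    obtain ⟨e⟩ := hc
    refine ⟨fun p => if h : p ∈ {p : Idx κ × (Idx κ → Set T) | ∃ G ∈ M, ∃ a, p.2 = res G (Iio a)}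
      then e ⟨p, h⟩ else z, ?_⟩
    intro p hp q hq hpq
    simp only [dif_pos hp, dif_pos hq] at hpq
    exact congrArg Subtype.val (e.injective hpq)
  -- cut functions are in the domain of injectivity
  have hcutM : ∀ G, (∀ a, res G (Iio a) ∈ M) → ∀ ξ, cut code G ξ ∈ M ∧
      ∃ G' ∈ M, cut code G ξ = cut code G' ξ := by
    intro G hG ξ
    obtain ⟨a, ha, ha'⟩ := cut_eq_of_res code hκ G ξ
    exact ⟨ha ▸ hG a, _, hG a, ha'⟩
  have hcutdom : ∀ G ∈ M, ∀ ξ, (ξ, cut code G ξ) ∈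
      {p : Idx κ × (Idx κ → Set T) | ∃ G ∈ M, ∃ a, p.2 = res G (Iio a)} := by
    intro G hG ξ
    obtain ⟨a, ha, -⟩ := cut_eq_of_res code hκ G ξ
    exact ⟨G, hG, a, ha⟩
  have hsize : ∀ (F : Idx κ → Set T), (∀ x, #(F x) < χ) → ∀ η, #(Bs code F η) < χ := fun F hF η =>
    (Cardinal.mk_le_mk_of_subset (Bs_subset code F η)).trans_lt (hF _)
  -- nodes at all levels
  have hlevel : ∀ ξ : Idx κ, ∃ p : Nd χ code M, p.1.1 = ξ := by
    intro ξ
    obtain ⟨t, ht⟩ := hT.level_nonempty ξ.o (o_lt ξ)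
    have hrt : rk t = ξ.o := (hT.tree.hasHeight_iff t _).1 ht
    let f : Idx κ → T := fun x => if h : ∃ ζ : Idx κ, ζ ≤ ξ ∧ ∃ G' ∈ M, x = code (ζ, cut code G' ζ)
      then pr t h.choose.o else t
    have hf : ∀ ζ : Idx κ, ζ ≤ ξ → ∀ G' ∈ M, f (code (ζ, cut code G' ζ)) = pr t ζ.o := by
      intro ζ hζ G' hG'
      have h : ∃ ζ' : Idx κ, ζ' ≤ ξ ∧ ∃ G'' ∈ M, code (ζ, cut code G' ζ) = code (ζ', cut code G'' ζ') :=
        ⟨ζ, hζ, G', hG', rfl⟩
      simp only [f]
      rw [dif_pos h]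
      obtain ⟨h1, G'', hG'', h2⟩ := h.choose_spec
      have h3 := hcode (hcutdom G' hG' ζ) (hcutdom G'' hG'' _) h2
      have h4 : ζ = h.choose := congrArg Prod.fst h3
      rw [← h4]
    obtain ⟨F, hF, hFM⟩ := hcov f
    obtain ⟨-, G', hG', hcG'⟩ := hcutM F hFM ξ
    refine ⟨⟨(ξ, cut code F ξ), ⟨G', hG', hcG'⟩, ?_⟩, rfl⟩
    intro η hη
    show (Bs code (cut code F ξ) η).Nonempty ∧ #(Bs code (cut code F ξ) η) < χ
    rw [Bs_cut code F hη]
    refine ⟨⟨pr t η.o, ?_, ?_⟩, hsize F (fun x => (hF x).2) η⟩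
    · exact rk_pr (by rw [hrt]; exact (o_lt_o.2 hη).le)
    · intro ζ hζ s hs hrs
      have hζξ : ζ ≤ ξ := hζ.trans hη.le
      have h1 : s = pr t ζ.o := hT.tree.eq_of_rk (hs.trans (pr_le _ _)) (pr_le _ _) (by
        rw [hrs, rk_pr (by rw [hrt]; exact o_le_o.2 hζξ)])
      obtain ⟨-, G'', hG'', hcG''⟩ := hcutM F hFM ζ
      have h2 : f (cc code F ζ) = pr t ζ.o := by
        rw [cc_eq, hcG'']
        exact hf ζ hζξ G'' hG''
      rw [h1, ← h2]
      exact (hF _).1
  have htree : IsTree (Nd χ code M) := Nd.isTree hMne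
  refine ⟨Nd χ code M, inferInstance, ⟨htree, ?_, ?_, ?_, ?_⟩, ?_⟩
  · -- cardinality
    apply le_antisymm
    · have hch : ∀ p : Nd χ code M, ∃ G : M, p.1.2 = cut code G.1 p.1.1 := by
        intro p
        obtain ⟨⟨G, hG, hG'⟩, _⟩ := p.2
        exact ⟨⟨G, hG⟩, hG'⟩
      choose Gc hGc using hch
      have hinj : Function.Injective (fun p : Nd χ code M => ((p.1.1, Gc p) : Idx κ × M)) := by
        intro p q hpq
        have h1 : p.1.1 = q.1.1 := congrArg (fun w : Idx κ × M => w.1) hpq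
        have h2 : Gc p = Gc q := congrArg (fun w : Idx κ × M => w.2) hpq
        refine Subtype.ext (Prod.ext h1 ?_)
        rw [hGc p, hGc q, h1, h2]
      refine (Cardinal.mk_le_of_injective hinj).trans ?_
      rw [Cardinal.mk_prod, Cardinal.lift_id, Cardinal.lift_id, card_idx]
      exact Cardinal.mul_le_of_le hsk le_rfl hM
    · choose p hp using hlevel
      rw [← card_idx (κ := κ)]
      exact Cardinal.mk_le_of_injective (f := p) (fun a b hab => by rw [← hp a, ← hp b, hab])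
  · intro α hα
    obtain ⟨ξ, hξ⟩ := exists_idx hα
    obtain ⟨p, hp⟩ := hlevel ξ
    exact ⟨p, (htree.hasHeight_iff p α).2 (by rw [p.rk_eq, hp, hξ])⟩
  · rintro ⟨p, hp⟩
    have := (htree.hasHeight_iff p _).1 hp
    rw [p.rk_eq] at this
    exact (o_lt p.1.1).ne this
  · -- no branch
    intro hbr
    obtain ⟨g, hg⟩ := strictMono_of_branch hbr
    -- reindex
    let g' : Idx κ → Nd χ code M := fun x => g x.toOrd
    have hg' : StrictMono g' := fun a b hab => hg (Ordinal.ToType.mk.symm.strictMono hab)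
    have hfst : StrictMono (fun x => (g' x).1.1) := fun a b hab => Nd.lt_fst (hg' hab)
    have hge : ∀ x, x ≤ (g' x).1.1 := fun x => hfst.le_apply
    choose nx hnx using exists_idx_gt hκ
    have hagree : ∀ x y ξ, ξ < (g' x).1.1 → ξ < (g' y).1.1 → Bs code (g' x).1.2 ξ = Bs code (g' y).1.2 ξ := by
      have key : ∀ x y ξ, x ≤ y → ξ < (g' x).1.1 → Bs code (g' x).1.2 ξ = Bs code (g' y).1.2 ξ := by
        intro x y ξ hxy hx
        have h1 := (hg'.monotone hxy).2
        rw [h1]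
        exact Bs_cut code _ hx
      intro x y ξ hx hy
      rcases le_total x y with h | h
      · exact key x y ξ h hx
      · exact (key y x ξ h hy).symm
    have hξ : ∀ ξ, ξ < (g' (nx ξ)).1.1 := fun ξ => (hnx ξ).trans_le (hge _)
    refine hnoT (branch_of_coherent hT.tree hTP (fun ξ => Bs code (g' (nx ξ)).1.2 ξ) ?_ ?_ ?_ ?_)
    · intro ξ t ht; exact ht.1
    · intro ξ; exact ((g' (nx ξ)).2.2 ξ (hξ ξ)).1
    · intro ξ; exact ((g' (nx ξ)).2.2 ξ (hξ ξ)).2
    · intro ξ η hη t ht s hs hr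
      show s ∈ Bs code (g' (nx η)).1.2 η
      rw [hagree (nx η) (nx ξ) η (hξ η) (hη.trans_lt (hξ ξ))]
      exact Bs_down code hη ht hs hr
  · -- no embedding
    rintro ⟨f0, hf0⟩
    obtain ⟨g, hg, hgr⟩ := exists_level_preserving hT.tree f0 hf0
    let f : Idx κ → T := fun x => if h : ∃ p : Nd χ code M, code p.1 = x then g h.choose else r0
    have hinj : ∀ p q : Nd χ code M, code p.1 = code q.1 → p = q := by
      intro p q hpq
      obtain ⟨⟨G, hG, hG'⟩, _⟩ := p.2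
      obtain ⟨⟨G2, hG2, hG2'⟩, _⟩ := q.2
      refine Subtype.ext (hcode ?_ ?_ hpq)
      · have := hcutdom G hG p.1.1
        rw [← hG'] at this
        exact this
      · have := hcutdom G2 hG2 q.1.1
        rw [← hG2'] at this
        exact this
    have hf : ∀ p : Nd χ code M, f (code p.1) = g p := by
      intro p
      have h : ∃ q : Nd χ code M, code q.1 = code p.1 := ⟨p, rfl⟩
      simp only [f]
      rw [dif_pos h, hinj _ _ h.choose_spec]
    obtain ⟨F, hF, hFM⟩ := hcov f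
    have hN : ∀ ξ, ∀ η < ξ, (Bs code (cut code F ξ) η).Nonempty ∧ #(Bs code (cut code F ξ) η) < χ := by
      intro ξ
      induction ξ using WellFoundedLT.induction with
      | ind ξ ih =>
        intro η hη
        rw [Bs_cut code F hη]
        refine ⟨?_, hsize F (fun x => (hF x).2) η⟩
        let N : (ζ : Idx κ) → ζ < ξ → Nd χ code M := fun ζ hζ =>
          ⟨(ζ, cut code F ζ), (hcutM F hFM ζ).2, ih ζ hζ⟩
        refine ⟨g (N η hη), ?_, ?_⟩
        · rw [hgr, Nd.rk_eq]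
        · intro ζ hζ s hs hrs
          have hζξ : ζ < ξ := hζ.trans_lt hη
          have h1 : N ζ hζξ ≤ N η hη := ⟨hζ, (cut_cut code F hζ).symm⟩
          have h2 : s = g (N ζ hζξ) := hT.tree.eq_of_rk hs (hg.monotone h1) (by
            rw [hgr, Nd.rk_eq, hrs])
          have h3 : f (cc code F ζ) = g (N ζ hζξ) := by
            rw [cc_eq]; exact hf (N ζ hζξ)
          rw [h2, ← h3]
          exact (hF _).1
    let N : Idx κ → Nd χ code M := fun ζ => ⟨(ζ, cut code F ζ), (hcutM F hFM ζ).2, hN ζ⟩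
    have hNmono : StrictMono N := by
      intro a b hab
      refine lt_of_le_of_ne ⟨hab.le, (cut_cut code F hab.le).symm⟩ fun h => hab.ne ?_
      exact congrArg (fun q : Nd χ code M => q.1.1) h
    exact hnoT ⟨fun α => g (N (Ordinal.ToType.mk α)), fun a b hab =>
      hg (hNmono (Ordinal.ToType.mk.strictMono hab))⟩

end Pool.Agent.Work.MP_d2308b_lc.H94
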