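import Pool.Agent.Work.MP_d2308b_lc.H94.MainA

namespace Pool.Agent.Work.MP_d2308b_lc.H94

universe u
open Cardinal Set

variable {κ : Cardinal.{u}}

/-- `C` is a downward closed chain of order type `δ` -/
def IsPath {T : Type u} [PartialOrder T] (C : Set T) (δ : Ordinal.{u}) : Prop :=
  IsChain (· ≤ ·) C ∧ IsLowerSet C ∧ Nonempty (C ≃o Iio δ)

section path

variable {T : Type u} [PartialOrder T] [WellFoundedLT T]

/-- `C` is a path of length `δ`, in terms of ranks -/
structure RPath (C : Set T) (δ : Ordinal.{u}) : Prop where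
  chain : IsChain (· ≤ ·) C
  lower : IsLowerSet C
  lt : ∀ t ∈ C, rk t < δ
  ex : ∀ η < δ, ∃ t ∈ C, rk t = η

theorem RPath.eq_of_rk {C : Set T} {δ : Ordinal.{u}} (h : RPath C δ) {a b : T} (ha : a ∈ C) (hb : b ∈ C)
    (hr : rk a = rk b) : a = b := by
  by_contra hne
  rcases h.chain ha hb hne with h1 | h1
  · exact absurd hr (rk_lt (lt_of_le_of_ne h1 hne)).ne
  · exact absurd hr (rk_lt (lt_of_le_of_ne h1 (Ne.symm hne))).ne'

theorem RPath.le_of_rk {C : Set T} {δ : Ordinal.{u}} (h : RPath C δ) {a b : T} (ha : a ∈ C) (hb : b ∈ C)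
    (hr : rk a ≤ rk b) : a ≤ b := by
  by_cases hne : a = b
  · exact hne.le
  rcases h.chain ha hb hne with h1 | h1
  · exact h1
  · exact absurd hr (not_le.2 (rk_lt (lt_of_le_of_ne h1 (Ne.symm hne))))

theorem RPath.lt_of_rk {C : Set T} {δ : Ordinal.{u}} (h : RPath C δ) {a b : T} (ha : a ∈ C) (hb : b ∈ C)
    (hr : rk a < rk b) : a < b :=
  lt_of_le_of_ne (h.le_of_rk ha hb hr.le) (fun h' => hr.ne (congrArg rk h'))

/-- order isomorphism given by the rank -/
noncomputable def RPath.iso {C : Set T} {δ : Ordinal.{u}} (h : RPath C δ) : C ≃o Iio δ where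
  toFun s := ⟨rk s.1, h.lt _ s.2⟩
  invFun η := ⟨(h.ex η.1 η.2).choose, (h.ex η.1 η.2).choose_spec.1⟩
  left_inv s := Subtype.ext (h.eq_of_rk (h.ex (rk s.1) (h.lt _ s.2)).choose_spec.1 s.2
    (h.ex (rk s.1) (h.lt _ s.2)).choose_spec.2)
  right_inv η := Subtype.ext (h.ex η.1 η.2).choose_spec.2
  map_rel_iff' := by
    intro a b
    constructor
    · intro hab
      exact h.le_of_rk a.2 b.2 hab
    · intro hab
      exact rk_le (show a.1 ≤ b.1 from hab)

theorem RPath.isPath {C : Set T} {δ : Ordinal.{u}} (h : RPath C δ) : IsPath C δ :=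
  ⟨h.chain, h.lower, ⟨h.iso⟩⟩

theorem RPath.restrict {C : Set T} {δ δ' : Ordinal.{u}} (h : RPath C δ) (hδ : δ' ≤ δ) :
    RPath {t | t ∈ C ∧ rk t < δ'} δ' where
  chain := h.chain.mono (fun _ ht => ht.1)
  lower := fun _ _ hba ha => ⟨h.lower hba ha.1, (rk_le hba).trans_lt ha.2⟩
  lt := fun _ ht => ht.2
  ex := fun η hη => by
    obtain ⟨t, ht, hr⟩ := h.ex η (hη.trans_le hδ)
    exact ⟨t, ⟨ht, hr ▸ hη⟩, hr⟩

theorem IsTree.rpath_Iio (hT : IsTree T) (t : T) : RPath (Iio t) (rk t) where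
  chain := fun a ha b hb _ => hT.comp t a b ha hb
  lower := fun _ _ hba ha => lt_of_le_of_lt hba ha
  lt := fun _ hs => rk_lt hs
  ex := fun η hη => by
    obtain ⟨s, hs, hr⟩ := exists_lt_rk t η hη
    exact ⟨s, hs, hr⟩

end path

/-- restriction of a path -/
def cu {T : Type u} [PartialOrder T] [WellFoundedLT T] (d : Idx κ →o Ordinal.{u}) (C : Set T)
    (η : Idx κ) : Set T := {t | t ∈ C ∧ rk t < d η}

/-- nodes of the second construction -/
structure NB (T : Type u) [PartialOrder T] [WellFoundedLT T] (d : Idx κ →o Ordinal.{u}) : Type u where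
  lv : Idx κ
  pt : Set T
  ok : RPath pt (d lv)

section NB

variable {T : Type u} [PartialOrder T] [WellFoundedLT T] {d : Idx κ →o Ordinal.{u}}

theorem NB.ext' {p q : NB T d} (h1 : p.lv = q.lv) (h2 : p.pt = q.pt) : p = q := by
  obtain ⟨a, b, c⟩ := p
  obtain ⟨a', b', c'⟩ := q
  cases h1
  cases h2
  rfl

theorem cu_self {C : Set T} {ξ : Idx κ} (h : RPath C (d ξ)) : cu d C ξ = C := by
  ext t
  exact ⟨fun h' => h'.1, fun h' => ⟨h', h.lt _ h'⟩⟩

theorem cu_cu (C : Set T) {ξ η : Idx κ} (h : η ≤ ξ) : cu d (cu d C ξ) η = cu d C η := by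
  ext t
  exact ⟨fun h' => ⟨h'.1.1, h'.2⟩, fun h' => ⟨⟨h'.1, h'.2.trans_le (d.monotone h)⟩, h'.2⟩⟩

instance : PartialOrder (NB T d) where
  le p q := p.lv ≤ q.lv ∧ p.pt = cu d q.pt p.lv
  le_refl p := ⟨le_rfl, (cu_self p.ok).symm⟩
  le_trans p q r hpq hqr := ⟨hpq.1.trans hqr.1, by rw [hpq.2, hqr.2, cu_cu _ hpq.1]⟩
  le_antisymm p q hpq hqp := by
    have h1 : p.lv = q.lv := le_antisymm hpq.1 hqp.1
    refine NB.ext' h1 ?_
    rw [hpq.2, h1, cu_self q.ok]

theorem NB.le_iff {p q : NB T d} : p ≤ q ↔ p.lv ≤ q.lv ∧ p.pt = cu d q.pt p.lv := Iff.rfl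

theorem NB.lt_lv {p q : NB T d} (h : p < q) : p.lv < q.lv := by
  rcases h.le.1.eq_or_lt with h1 | h1
  · exfalso
    refine h.ne (NB.ext' h1 ?_)
    rw [h.le.2, h1, cu_self q.ok]
  · exact h1

instance : WellFoundedLT (NB T d) :=
  ⟨Subrelation.wf (fun {_ _} h => NB.lt_lv h) (InvImage.wf (fun p : NB T d => p.lv) wellFounded_lt)⟩

/-- predecessor -/
def NB.pd (p : NB T d) (η : Idx κ) (h : η ≤ p.lv) : NB T d :=
  ⟨η, cu d p.pt η, p.ok.restrict (d.monotone h)⟩

theorem NB.pd_le (p : NB T d) (η : Idx κ) (h : η ≤ p.lv) : p.pd η h ≤ p := ⟨h, rfl⟩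

theorem NB.rk_eq (p : NB T d) : rk p = p.lv.o := by
  induction p using WellFoundedLT.induction with
  | ind p ih =>
    apply le_antisymm
    · by_contra hl
      push Not at hl
      obtain ⟨q, hq, hq'⟩ := exists_lt_rk p _ hl
      rw [ih q hq] at hq'
      exact (NB.lt_lv hq).ne (o_inj.1 hq')
    · by_contra hl
      push Not at hl
      obtain ⟨η, hη⟩ := exists_idx (hl.trans (o_lt p.lv))
      have hη' : η < p.lv := by rw [← o_lt_o, hη]; exact hl
      have h1 : p.pd η hη'.le < p := lt_of_le_of_ne (p.pd_le η hη'.le) (by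
        intro h
        have := congrArg NB.lv h
        exact hη'.ne this)
      have h2 := ih _ h1
      have h3 := rk_lt h1
      rw [h2] at h3
      have h4 : (p.pd η hη'.le).lv.o = rk p := hη
      rw [h4] at h3
      exact lt_irrefl _ h3

theorem NB.isTree (hd : ∀ x, d x ≤ x.o) : IsTree (NB T d) where
  root := by
    obtain ⟨z, hz⟩ := exists_idx_zero κ
    have hdz : d z = 0 := by
      have := hd z
      rw [hz] at this
      exact le_antisymm this zero_le
    have hzle : ∀ x : Idx κ, z ≤ x := fun x => by rw [← o_le_o, hz]; exact zero_le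
    refine ⟨⟨z, ∅, ⟨by simp [IsChain], by simp [IsLowerSet], by simp, ?_⟩⟩, fun p => ⟨hzle _, ?_⟩⟩
    · intro η hη
      rw [hdz] at hη
      exact absurd hη (not_lt.2 zero_le)
    · show ∅ = cu d p.pt z
      symm
      ext t
      constructor
      · rintro ⟨_, h⟩
        rw [hdz] at h
        exact absurd h (not_lt.2 zero_le)
      · rintro ⟨⟩
  comp := by
    intro q a b ha hb
    rcases le_total a.lv b.lv with h | h
    · left
      exact ⟨h, by rw [ha.le.2, hb.le.2, cu_cu _ h]⟩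
    · right
      exact ⟨h, by rw [ha.le.2, hb.le.2, cu_cu _ h]⟩
  wf := fun t => (wellFounded_lt (α := NB T d)).wellFoundedOn

end NB

/-- Second construction: if there is a club of lengths `δ` for which `T` has at most `κ⁺`
downward closed chains of order type `δ`, then `T` is not maximal. -/
theorem main_B (hκ : ℵ₀ ≤ κ) (T : Type u) [PartialOrder T]
    (hT : IsWideAronszajn (Order.succ κ) T) (E : Set Ordinal.{u})
    (hunb : ∀ α < (Order.succ κ).ord, ∃ β ∈ E, α < β ∧ β < (Order.succ κ).ord)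
    (hclosed : ∀ δ < (Order.succ κ).ord, δ ≠ 0 → (∀ α < δ, ∃ β ∈ E, α < β ∧ β < δ) → δ ∈ E)
    (hfew : ∀ δ ∈ E, δ < (Order.succ κ).ord → #{C : Set T | IsPath C δ} ≤ Order.succ κ) :
    ∃ (S : Type u) (_ : PartialOrder S), IsWideAronszajn (Order.succ κ) S ∧
      ¬ ∃ f : S → T, StrictMono f := by
  classical
  have hsk : ℵ₀ ≤ Order.succ κ := hκ.trans (Order.le_succ κ)
  have := hT.tree.wellFoundedLT
  obtain ⟨z, hz⟩ := exists_idx_zero κ
  obtain ⟨r0, hr0⟩ := hT.tree.root
  have hnoT : ¬ ∃ g : Iio (Order.succ κ).ord → T, StrictMono g := by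
    rintro ⟨g, hg⟩
    exact hT.no_branch (branch_of_strictMono g hg)
  -- the function δ
  obtain ⟨d, hd1, hd2, hd3, hd4⟩ : ∃ d : Idx κ → Ordinal.{u}, (∀ x, d x ≤ x.o) ∧ (∀ x y, x ≤ y → d x ≤ d y) ∧
      (∀ x, d x = 0 ∨ d x ∈ E) ∧ (∀ x : Idx κ, ∃ y : Idx κ, x ≤ y ∧ x.o < d y) := by
    -- `d x` is the supremum of `E ∩ [0, x]`
    let A : Idx κ → Set Ordinal.{u} := fun x => {β | β ∈ insert 0 E ∧ β ≤ x.o}
    have hbdd : ∀ x, BddAbove (A x) := fun x => ⟨x.o, fun _ h => h.2⟩
    have hne : ∀ x, (A x).Nonempty := fun x => ⟨0, Or.inl rfl, zero_le⟩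
    have hle : ∀ x, sSup (A x) ≤ x.o := fun x => csSup_le (hne x) (fun _ h => h.2)
    have hmem : ∀ x, sSup (A x) ∈ insert 0 E := by
      intro x
      by_contra hcon
      have hcon1 : sSup (A x) ≠ 0 := fun h => hcon (Or.inl h)
      have hcon2 : sSup (A x) ∉ E := fun h => hcon (Or.inr h)
      refine hcon2 (hclosed _ ((hle x).trans_lt (o_lt x)) hcon1 fun α hα => ?_)
      obtain ⟨β, hβ, hαβ⟩ := exists_lt_of_lt_csSup (hne x) hα
      have hβle : β ≤ sSup (A x) := le_csSup (hbdd x) hβ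
      have hβne : β ≠ sSup (A x) := fun h => hcon (h ▸ hβ.1)
      rcases hβ.1 with h | h
      · subst h; exact absurd hαβ (not_lt.2 zero_le)
      · exact ⟨β, h, hαβ, lt_of_le_of_ne hβle hβne⟩
    refine ⟨fun x => sSup (A x), hle, fun x y hxy => ?_, hmem, fun x => ?_⟩
    · refine csSup_le_csSup (hbdd y) (hne x) ?_
      rintro β ⟨h1, h2⟩
      exact ⟨h1, h2.trans (o_le_o.2 hxy)⟩
    · obtain ⟨β, hβE, hβ, hβ'⟩ := hunb x.o (o_lt x)
      obtain ⟨y, hy⟩ := exists_idx hβ'
      refine ⟨y, ?_, ?_⟩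
      · rw [← o_le_o, hy]; exact hβ.le
      · exact hβ.trans_le (le_csSup (hbdd y) ⟨Or.inr hβE, hy.ge⟩)
  let dd : Idx κ →o Ordinal.{u} := ⟨d, fun x y h => hd2 x y h⟩
  have htree : IsTree (NB T dd) := NB.isTree hd1
  have hlevel : ∀ ξ : Idx κ, ∃ p : NB T dd, p.lv = ξ := by
    intro ξ
    obtain ⟨t, ht⟩ := hT.level_nonempty (d ξ) ((hd1 ξ).trans_lt (o_lt ξ))
    have hrt : rk t = d ξ := (hT.tree.hasHeight_iff t _).1 ht
    have h1 := hT.tree.rpath_Iio t
    rw [hrt] at h1
    exact ⟨⟨ξ, Iio t, h1⟩, rfl⟩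
  refine ⟨NB T dd, inferInstance, ⟨htree, ?_, ?_, ?_, ?_⟩, ?_⟩
  · -- cardinality
    apply le_antisymm
    · have hV : ∀ ξ : Idx κ, #{C : Set T | RPath C (d ξ)} ≤ #(Idx κ) := by
        intro ξ
        rw [card_idx]
        rcases hd3 ξ with h | h
        · have hsub : {C : Set T | RPath C (d ξ)} ⊆ {∅} := by
            intro C hC
            rw [Set.mem_singleton_iff, Set.eq_empty_iff_forall_notMem]
            intro t ht
            have := hC.lt t ht
            rw [h] at this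
            exact absurd this (not_lt.2 zero_le)
          refine (Cardinal.mk_le_mk_of_subset hsub).trans ?_
          rw [Cardinal.mk_singleton]
          exact one_le_aleph0.trans hsk
        · refine (Cardinal.mk_le_mk_of_subset ?_).trans (hfew _ h ((hd1 ξ).trans_lt (o_lt ξ)))
          intro C hC
          exact RPath.isPath hC
      have hch : ∀ ξ : Idx κ, ∃ e : {C : Set T | RPath C (d ξ)} → Idx κ, Function.Injective e := by
        intro ξ
        obtain ⟨e⟩ := hV ξ
        exact ⟨e, e.injective⟩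
      choose e he using hch
      have hinj : Function.Injective (fun p : NB T dd => ((p.lv, e p.lv ⟨p.pt, p.ok⟩) : Idx κ × Idx κ)) := by
        rintro ⟨ξ, C, hp⟩ ⟨η, D, hq⟩ hpq
        have h1 : ξ = η := congrArg (fun w : Idx κ × Idx κ => w.1) hpq
        subst h1
        have h2 : e ξ ⟨C, hp⟩ = e ξ ⟨D, hq⟩ := congrArg (fun w : Idx κ × Idx κ => w.2) hpq
        have h3 := congrArg Subtype.val (he ξ h2)
        exact NB.ext' rfl h3
      refine (Cardinal.mk_le_of_injective hinj).trans ?_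
      rw [Cardinal.mk_prod, Cardinal.lift_id, card_idx]
      exact Cardinal.mul_le_of_le hsk le_rfl le_rfl
    · choose p hp using hlevel
      rw [← card_idx (κ := κ)]
      exact Cardinal.mk_le_of_injective (f := p) (fun a b hab => by rw [← hp a, ← hp b, hab])
  · intro α hα
    obtain ⟨ξ, hξ⟩ := exists_idx hα
    obtain ⟨p, hp⟩ := hlevel ξ
    exact ⟨p, (htree.hasHeight_iff p α).2 (by rw [NB.rk_eq, hp, hξ])⟩
  · rintro ⟨p, hp⟩
    have := (htree.hasHeight_iff p _).1 hp
    rw [NB.rk_eq] at this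
    exact (o_lt p.lv).ne this
  · -- no branch
    intro hbr
    obtain ⟨g, hg⟩ := strictMono_of_branch hbr
    let g' : Idx κ → NB T dd := fun x => g x.toOrd
    have hg' : StrictMono g' := fun a b hab => hg (Ordinal.ToType.mk.symm.strictMono hab)
    have hfst : StrictMono (fun x => (g' x).lv) := fun a b hab => NB.lt_lv (hg' hab)
    have hge : ∀ x, x ≤ (g' x).lv := fun x => hfst.le_apply
    choose nx hnx1 hnx2 using hd4
    have hel : ∀ ξ : Idx κ, ∃ t ∈ (g' (nx ξ)).pt, rk t = ξ.o := fun ξ =>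
      (g' (nx ξ)).ok.ex ξ.o ((hnx2 ξ).trans_le (hd2 _ _ (hge _)))
    choose t ht1 ht2 using hel
    have hmono : ∀ x y, x ≤ y → (g' x).pt ⊆ (g' y).pt := by
      intro x y hxy s hs
      rw [(hg'.monotone hxy).2] at hs
      exact hs.1
    refine hnoT ⟨fun α => t (Ordinal.ToType.mk α), fun α β hαβ => ?_⟩
    have hlt' : Ordinal.ToType.mk α < Ordinal.ToType.mk β := Ordinal.ToType.mk.strictMono hαβ
    have key : ∀ a b : Idx κ, a < b → t a < t b := by
      intro a b hab
      have h1 := hmono _ (max (nx a) (nx b)) (le_max_left _ _) (ht1 a)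
      have h2 := hmono _ (max (nx a) (nx b)) (le_max_right _ _) (ht1 b)
      exact (g' (max (nx a) (nx b))).ok.lt_of_rk h1 h2 (by rw [ht2, ht2]; exact o_lt_o.2 hab)
    exact key _ _ hlt'
  · -- no embedding
    rintro ⟨f0, hf0⟩
    obtain ⟨g, hg, hgr⟩ := exists_level_preserving hT.tree f0 hf0
    let P : Idx κ → T := WellFoundedLT.fix (fun γ rec =>
      if h : RPath {t | ∃ η, ∃ h : η < γ, η.o < d γ ∧ t = rec η h} (d γ) then g ⟨γ, _, h⟩ else r0)
    let Cn : Idx κ → Set T := fun γ => {t | ∃ η, ∃ _ : η < γ, η.o < d γ ∧ t = P η}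
    have hP : ∀ γ, ∀ h : RPath (Cn γ) (d γ), P γ = g ⟨γ, Cn γ, h⟩ := by
      intro γ h
      have h1 : P γ = if h : RPath (Cn γ) (d γ) then g ⟨γ, Cn γ, h⟩ else r0 :=
        WellFoundedLT.fix_eq _ γ
      rw [h1, dif_pos h]
    -- main induction
    have hmain : ∀ γ, RPath (Cn γ) (d γ) ∧ rk (P γ) = γ.o ∧ ∀ η < γ, P η < P γ := by
      intro γ
      induction γ using WellFoundedLT.induction with
      | ind γ ih =>
        have hR : RPath (Cn γ) (d γ) :=
          { chain := by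
              rintro _ ⟨η, hη, _, rfl⟩ _ ⟨ζ, hζ, _, rfl⟩ _
              rcases lt_trichotomy η ζ with h | h | h
              · exact Or.inl ((ih ζ hζ).2.2 η h).le
              · exact Or.inl (h ▸ le_rfl)
              · exact Or.inr ((ih η hη).2.2 ζ h).le
            lower := by
              rintro _ s hs ⟨η, hη, hη2, rfl⟩
              have hrs : rk s ≤ η.o := by rw [← (ih η hη).2.1]; exact rk_le hs
              obtain ⟨ζ, hζ⟩ := exists_idx (hrs.trans_lt (o_lt η))
              have hζη : ζ ≤ η := by rw [← o_le_o, hζ]; exact hrs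
              refine ⟨ζ, hζη.trans_lt hη, by rw [hζ]; exact hrs.trans_lt hη2, ?_⟩
              have h1 : P ζ ≤ P η := by
                rcases hζη.eq_or_lt with h | h
                · rw [h]
                · exact ((ih η hη).2.2 ζ h).le
              exact hT.tree.eq_of_rk hs h1 (by rw [(ih ζ (hζη.trans_lt hη)).2.1, hζ])
            lt := by
              rintro _ ⟨η, hη, hη2, rfl⟩
              rw [(ih η hη).2.1]; exact hη2
            ex := by
              intro η hη
              obtain ⟨ζ, hζ⟩ := exists_idx (hη.trans_le ((hd1 γ).trans (o_lt γ).le))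
              have hζγ : ζ < γ := by rw [← o_lt_o, hζ]; exact hη.trans_le (hd1 γ)
              exact ⟨P ζ, ⟨ζ, hζγ, by rw [hζ]; exact hη, rfl⟩, by rw [(ih ζ hζγ).2.1, hζ]⟩ }
        refine ⟨hR, ?_, ?_⟩
        · rw [hP γ hR, hgr, NB.rk_eq]
        · intro η hη
          have hRη := (ih η hη).1
          rw [hP γ hR, hP η hRη]
          refine hg (lt_of_le_of_ne ⟨hη.le, ?_⟩ ?_)
          · show Cn η = cu dd (Cn γ) η
            ext t
            constructor
            · rintro ⟨ζ, hζ, hζ2, rfl⟩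
              refine ⟨⟨ζ, hζ.trans hη, hζ2.trans_le (hd2 _ _ hη.le), rfl⟩, ?_⟩
              rw [(ih ζ (hζ.trans hη)).2.1]; exact hζ2
            · rintro ⟨⟨ζ, hζ, hζ2, rfl⟩, h2⟩
              rw [(ih ζ hζ).2.1] at h2
              have : ζ < η := by rw [← o_lt_o]; exact h2.trans_le (hd1 η)
              exact ⟨ζ, this, h2, rfl⟩
          · intro h
            exact hη.ne (congrArg NB.lv h)
    exact hnoT ⟨fun α => P (Ordinal.ToType.mk α), fun a b hab =>
      (hmain _).2.2 _ (Ordinal.ToType.mk.strictMono hab)⟩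

end Pool.Agent.Work.MP_d2308b_lc.H94
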