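import Pool.Agent.Work.MP_d2308b_lc.H94.Kurepa

namespace Pool.Agent.Work.MP_d2308b_lc.H94

universe u
open Cardinal Set

variable {κ χ : Cardinal.{u}}

section cut

variable {T : Type u} (code : Idx κ × (Idx κ → Set T) → Idx κ)

/-- restriction of a function to a set -/
def res (G : Idx κ → Set T) (D : Set (Idx κ)) : Idx κ → Set T := fun x => {y | x ∈ D ∧ y ∈ G x}

theorem res_congr {G G' : Idx κ → Set T} {D : Set (Idx κ)} (h : ∀ x ∈ D, G x = G' x) :
    res G D = res G' D := by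
  funext x
  ext y
  constructor
  · rintro ⟨h1, h2⟩; exact ⟨h1, h x h1 ▸ h2⟩
  · rintro ⟨h1, h2⟩; exact ⟨h1, (h x h1).symm ▸ h2⟩

theorem res_apply_of_mem {G : Idx κ → Set T} {D : Set (Idx κ)} {x : Idx κ} (h : x ∈ D) :
    res G D x = G x := by
  ext y
  exact ⟨fun h' => h'.2, fun h' => ⟨h, h'⟩⟩

theorem res_res (G : Idx κ → Set T) (D D' : Set (Idx κ)) : res (res G D) D' = res G (D ∩ D') := by
  funext x
  ext y
  constructor
  · rintro ⟨h1, h2, h3⟩; exact ⟨⟨h2, h1⟩, h3⟩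
  · rintro ⟨⟨h1, h2⟩, h3⟩; exact ⟨h2, h1, h3⟩

/-- the code of the `ξ`-th node along `G` -/
noncomputable def cc (G : Idx κ → Set T) : Idx κ → Idx κ :=
  WellFoundedLT.fix (fun ξ rec => code (ξ, res G {x | ∃ η, ∃ h : η < ξ, x ≤ rec η h}))

/-- the part of `G` used for the nodes below `ξ` -/
def Ds (G : Idx κ → Set T) (ξ : Idx κ) : Set (Idx κ) := {x | ∃ η, ∃ _ : η < ξ, x ≤ cc code G η}

/-- the `ξ`-th node along `G` -/
def cut (G : Idx κ → Set T) (ξ : Idx κ) : Idx κ → Set T := res G (Ds code G ξ)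

theorem cc_eq (G : Idx κ → Set T) (ξ : Idx κ) : cc code G ξ = code (ξ, cut code G ξ) := by
  unfold cc
  rw [WellFoundedLT.fix_eq]
  rfl

theorem Ds_mono (G : Idx κ → Set T) {ξ η : Idx κ} (h : η ≤ ξ) : Ds code G η ⊆ Ds code G ξ := by
  rintro x ⟨ζ, hζ, hx⟩
  exact ⟨ζ, hζ.trans_le h, hx⟩

theorem cc_mem_Ds (G : Idx κ → Set T) {ξ η : Idx κ} (h : η < ξ) : cc code G η ∈ Ds code G ξ :=
  ⟨η, h, le_rfl⟩

theorem loc {G G' : Idx κ → Set T} {ξ : Idx κ} (h : ∀ x ∈ Ds code G ξ, G x = G' x) :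
    ∀ η, η ≤ ξ → cc code G η = cc code G' η ∧ Ds code G η = Ds code G' η ∧
      cut code G η = cut code G' η := by
  intro η
  induction η using WellFoundedLT.induction with
  | ind η ih =>
    intro hη
    have h1 : Ds code G η = Ds code G' η := by
      ext x
      constructor
      · rintro ⟨ζ, hζ, hx⟩; exact ⟨ζ, hζ, (ih ζ hζ (hζ.le.trans hη)).1 ▸ hx⟩
      · rintro ⟨ζ, hζ, hx⟩; exact ⟨ζ, hζ, (ih ζ hζ (hζ.le.trans hη)).1.symm ▸ hx⟩
    have h2 : cut code G η = cut code G' η := by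
      unfold cut
      rw [← h1]
      exact res_congr fun x hx => h x (Ds_mono code G hη hx)
    exact ⟨by rw [cc_eq, cc_eq, h2], h1, h2⟩

theorem cut_cut (G : Idx κ → Set T) {ξ η : Idx κ} (h : η ≤ ξ) :
    cut code (cut code G ξ) η = cut code G η := by
  have : ∀ x ∈ Ds code G ξ, G x = cut code G ξ x := fun x hx => (res_apply_of_mem hx).symm
  exact (loc code this η h).2.2.symm

variable [PartialOrder T] [WellFoundedLT T]

/-- the set of nodes of `T` at level `η` captured by `G` -/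
def Bs (G : Idx κ → Set T) (η : Idx κ) : Set T :=
  {t | rk t = η.o ∧ ∀ ζ, ζ ≤ η → ∀ s ≤ t, rk s = ζ.o → s ∈ G (cc code G ζ)}

theorem Bs_congr {G G' : Idx κ → Set T} {ξ : Idx κ} (h : ∀ x ∈ Ds code G ξ, G x = G' x) {η : Idx κ}
    (hη : η < ξ) : Bs code G η = Bs code G' η := by
  ext t
  have key : ∀ ζ, ζ ≤ η → G (cc code G ζ) = G' (cc code G' ζ) := by
    intro ζ hζ
    rw [← (loc code h ζ (hζ.trans hη.le)).1]
    exact h _ (cc_mem_Ds code G (hζ.trans_lt hη))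
  constructor
  · rintro ⟨h1, h2⟩
    exact ⟨h1, fun ζ hζ s hs hr => key ζ hζ ▸ h2 ζ hζ s hs hr⟩
  · rintro ⟨h1, h2⟩
    exact ⟨h1, fun ζ hζ s hs hr => (key ζ hζ).symm ▸ h2 ζ hζ s hs hr⟩

theorem Bs_cut (G : Idx κ → Set T) {ξ η : Idx κ} (hη : η < ξ) :
    Bs code (cut code G ξ) η = Bs code G η :=
  (Bs_congr code (G' := cut code G ξ) (fun _ hx => (res_apply_of_mem hx).symm) hη).symm

theorem Bs_down {G : Idx κ → Set T} {ξ η : Idx κ} (h : η ≤ ξ) {t s : T} (ht : t ∈ Bs code G ξ)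
    (hs : s ≤ t) (hr : rk s = η.o) : s ∈ Bs code G η :=
  ⟨hr, fun ζ hζ r hrs hrr => ht.2 ζ (hζ.trans h) r (hrs.trans hs) hrr⟩

theorem Bs_subset (G : Idx κ → Set T) (η : Idx κ) : Bs code G η ⊆ G (cc code G η) :=
  fun _ ht => ht.2 η le_rfl _ le_rfl ht.1

variable (χ) (M : Set (Idx κ → Set T))

/-- nodes of the new tree -/
def Nd : Type u :=
  {p : Idx κ × (Idx κ → Set T) // (∃ G ∈ M, p.2 = cut code G p.1) ∧
    ∀ η < p.1, (Bs code p.2 η).Nonempty ∧ #(Bs code p.2 η) < χ}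

variable {code χ M}

theorem Nd.cut_self (p : Nd χ code M) : cut code p.1.2 p.1.1 = p.1.2 := by
  obtain ⟨⟨G, _, hG⟩, _⟩ := p.2
  conv_rhs => rw [hG]
  rw [hG, cut_cut code G le_rfl]

instance : PartialOrder (Nd χ code M) where
  le p q := p.1.1 ≤ q.1.1 ∧ p.1.2 = cut code q.1.2 p.1.1
  le_refl p := ⟨le_rfl, p.cut_self.symm⟩
  le_trans p q r hpq hqr := ⟨hpq.1.trans hqr.1, by rw [hpq.2, hqr.2, cut_cut code _ hpq.1]⟩
  le_antisymm p q hpq hqp := by
    have h1 : p.1.1 = q.1.1 := le_antisymm hpq.1 hqp.1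
    refine Subtype.ext (Prod.ext h1 ?_)
    rw [hpq.2, h1, q.cut_self]

theorem Nd.le_def (p q : Nd χ code M) : p ≤ q ↔ p.1.1 ≤ q.1.1 ∧ p.1.2 = cut code q.1.2 p.1.1 := Iff.rfl

theorem Nd.lt_fst {p q : Nd χ code M} (h : p < q) : p.1.1 < q.1.1 := by
  rcases h.le.1.eq_or_lt with h1 | h1
  · exfalso
    refine h.ne (Subtype.ext (Prod.ext h1 ?_))
    rw [h.le.2, h1, q.cut_self]
  · exact h1

instance : WellFoundedLT (Nd χ code M) :=
  ⟨Subrelation.wf (fun {p q} h => Nd.lt_fst h) (InvImage.wf (fun p : Nd χ code M => p.1.1) wellFounded_lt)⟩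

/-- the predecessor at level `η` -/
def Nd.pred (p : Nd χ code M) (η : Idx κ) (h : η ≤ p.1.1) : Nd χ code M :=
  ⟨(η, cut code p.1.2 η), by
    obtain ⟨⟨G, hGM, hG⟩, h2⟩ := p.2
    constructor
    · exact ⟨G, hGM, by show cut code p.1.2 η = _; rw [hG, cut_cut code G h]⟩
    · intro ζ hζ
      show (Bs code (cut code p.1.2 η) ζ).Nonempty ∧ #(Bs code (cut code p.1.2 η) ζ) < χ
      rw [Bs_cut code _ hζ]
      exact h2 ζ (hζ.trans_le h)⟩

theorem Nd.pred_le (p : Nd χ code M) (η : Idx κ) (h : η ≤ p.1.1) : p.pred η h ≤ p := ⟨h, rfl⟩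

theorem Nd.rk_eq (p : Nd χ code M) : rk p = p.1.1.o := by
  induction p using WellFoundedLT.induction with
  | ind p ih =>
    apply le_antisymm
    · by_contra hlt
      push Not at hlt
      obtain ⟨q, hq, hq'⟩ := exists_lt_rk p _ hlt
      rw [ih q hq] at hq'
      exact (Nd.lt_fst hq).ne (o_inj.1 hq')
    · by_contra hlt
      push Not at hlt
      obtain ⟨η, hη⟩ := exists_idx (hlt.trans (o_lt p.1.1))
      have hη' : η < p.1.1 := by rw [← o_lt_o, hη]; exact hlt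
      have h1 : p.pred η hη'.le < p := lt_of_le_of_ne (p.pred_le η hη'.le) (by
        intro h
        have := congrArg (fun q : Nd χ code M => q.1.1) h
        exact hη'.ne this)
      have h2 := ih _ h1
      have h3 := rk_lt h1
      rw [h2] at h3
      have h4 : (p.pred η hη'.le).1.1.o = rk p := hη
      rw [h4] at h3
      exact lt_irrefl _ h3

theorem Nd.isTree (hM : M.Nonempty) : IsTree (Nd χ code M) where
  root := by
    obtain ⟨z, hz⟩ := exists_idx_zero κ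
    obtain ⟨G, hG⟩ := hM
    have hz' : ∀ η, ¬ η < z := by
      intro η h
      have := o_lt_o.2 h
      rw [hz] at this
      exact absurd this (not_lt.2 zero_le)
    have hcz : ∀ G' : Idx κ → Set T, cut code G' z = fun _ => ∅ := by
      intro G'
      funext x
      ext y
      constructor
      · rintro ⟨⟨η, hη, _⟩, _⟩; exact absurd hη (hz' η)
      · rintro ⟨⟩
    refine ⟨⟨(z, cut code G z), ⟨G, hG, rfl⟩, fun η hη => absurd hη (hz' η)⟩, fun p => ⟨?_, ?_⟩⟩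
    · exact not_lt.1 (hz' _)
    · show cut code G z = cut code p.1.2 z
      rw [hcz, hcz]
  comp := by
    intro q a b ha hb
    rcases le_total a.1.1 b.1.1 with h | h
    · left
      exact ⟨h, by rw [ha.le.2, hb.le.2, cut_cut code _ h]⟩
    · right
      exact ⟨h, by rw [ha.le.2, hb.le.2, cut_cut code _ h]⟩
  wf := by
    intro t
    exact (wellFounded_lt (α := Nd χ code M)).wellFoundedOn

end cut

/-- the covering hypothesis -/
def SlalomHyp (κ χ : Cardinal.{u}) : Prop :=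
  ∃ M : Set (Idx κ → Set (Idx κ)), #M ≤ Order.succ κ ∧
    ∀ f : Idx κ → Idx κ, ∃ F : Idx κ → Set (Idx κ), (∀ x, f x ∈ F x ∧ #(F x) < χ) ∧
      ∀ a : Idx κ, (fun x => {y | x < a ∧ y ∈ F x}) ∈ M

/-- the covering hypothesis transferred to a set of size `κ⁺` -/
theorem SlalomHyp.transfer (H : SlalomHyp κ χ) {T : Type u} (hT : #T = Order.succ κ) :
    ∃ M : Set (Idx κ → Set T), #M ≤ Order.succ κ ∧
    ∀ f : Idx κ → T, ∃ F : Idx κ → Set T, (∀ x, f x ∈ F x ∧ #(F x) < χ) ∧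
      ∀ a : Idx κ, res F (Iio a) ∈ M := by
  obtain ⟨M, hM, hcov⟩ := H
  have hc : #T = #(Idx κ) := hT.trans card_idx.symm
  obtain ⟨e⟩ := Cardinal.eq.1 hc
  refine ⟨(fun G x => e ⁻¹' (G x)) '' M, (Cardinal.mk_image_le).trans hM, fun f => ?_⟩
  obtain ⟨F, hF, hFM⟩ := hcov (fun x => e (f x))
  refine ⟨fun x => e ⁻¹' (F x), fun x => ⟨(hF x).1, ?_⟩, fun a => ⟨_, hFM a, ?_⟩⟩
  · rw [Cardinal.mk_preimage_equiv]
    exact (hF x).2
  · funext x
    ext y
    exact Iff.rfl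

end Pool.Agent.Work.MP_d2308b_lc.H94
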