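import Mathlib

namespace Pool.Agent.Work.MP_d2308b_lc.H94

universe u
open Cardinal Set

/-- `T` is a tree: a partial order with a least element in which the set of strict predecessors
of every element is well-ordered. -/
structure IsTree (T : Type u) [PartialOrder T] : Prop where
  root : ∃ r : T, ∀ t, r ≤ t
  comp : ∀ t a b : T, a < t → b < t → a ≤ b ∨ b ≤ a
  wf : ∀ t : T, (Iio t).WellFoundedOn (· < ·)

/-- The height of `t` is `α`: the strict predecessors of `t` have order type `α`. -/
def HasHeight {T : Type u} [PartialOrder T] (t : T) (α : Ordinal.{u}) : Prop :=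
  Nonempty (Iio t ≃o Iio α)

/-- wide `lam`-Aronszajn trees -/
structure IsWideAronszajn (lam : Cardinal.{u}) (T : Type u) [PartialOrder T] : Prop where
  tree : IsTree T
  card : #T = lam
  level_nonempty : ∀ α < lam.ord, ∃ t : T, HasHeight t α
  level_empty : ¬ ∃ t : T, HasHeight t lam.ord
  no_branch : ¬ ∃ C : Set T, IsChain (· ≤ ·) C ∧ Nonempty (C ≃o Iio lam.ord)

section basic

variable {T : Type u} [PartialOrder T]

theorem IsTree.wellFoundedLT (hT : IsTree T) : WellFoundedLT T := by
  constructor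
  rw [RelEmbedding.wellFounded_iff_isEmpty]
  constructor
  intro f
  have h0 : ∀ n, f (n+1) ∈ Iio (f 0) := fun n => f.map_rel_iff.2 (by simp)
  have hw := hT.wf (f 0)
  rw [Set.WellFoundedOn, RelEmbedding.wellFounded_iff_isEmpty] at hw
  refine hw.elim ⟨⟨fun n => ⟨f (n+1), h0 n⟩, ?_⟩, ?_⟩
  · intro a b hab
    have := f.injective (Subtype.ext_iff.1 hab)
    simpa using this
  · intro a b
    show f (a+1) < f (b+1) ↔ _
    have := f.map_rel_iff (a := a+1) (b := b+1)
    simpa using this

variable [WellFoundedLT T]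

/-- the rank of an element of a well-founded partial order -/
noncomputable def rk (t : T) : Ordinal.{u} := IsWellFounded.rank (α := T) (· < ·) t

theorem rk_lt {s t : T} (h : s < t) : rk s < rk t := IsWellFounded.rank_lt_of_rel h

theorem rk_le {s t : T} (h : s ≤ t) : rk s ≤ rk t := by
  rcases h.eq_or_lt with rfl | h
  · rfl
  · exact (rk_lt h).le

theorem exists_lt_rk (t : T) : ∀ η < rk t, ∃ s < t, rk s = η := by
  induction t using WellFoundedLT.induction with
  | ind t ih =>
    intro η hη
    unfold rk at hη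
    rw [IsWellFounded.rank_eq, Ordinal.lt_iSup_iff] at hη
    obtain ⟨⟨s, hs⟩, hη⟩ := hη
    rw [Order.lt_succ_iff] at hη
    rcases hη.eq_or_lt with h | h
    · exact ⟨s, hs, h.symm⟩
    · obtain ⟨r, hr, hr'⟩ := ih s hs η h
      exact ⟨r, hr.trans hs, hr'⟩

theorem exists_le_rk (t : T) (η : Ordinal) (h : η ≤ rk t) : ∃ s ≤ t, rk s = η := by
  rcases h.eq_or_lt with h | h
  · exact ⟨t, le_rfl, h.symm⟩
  · obtain ⟨s, hs, h⟩ := exists_lt_rk t η h
    exact ⟨s, hs.le, h⟩

/-- the predecessor of `t` of rank `η` -/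
noncomputable def pr (t : T) (η : Ordinal.{u}) : T := by
  classical exact if h : ∃ s ≤ t, rk s = η then h.choose else t

theorem pr_le (t : T) (η : Ordinal.{u}) : pr t η ≤ t := by
  classical
  unfold pr
  split_ifs with h
  · exact h.choose_spec.1
  · exact le_rfl

theorem rk_pr {t : T} {η : Ordinal.{u}} (h : η ≤ rk t) : rk (pr t η) = η := by
  classical
  have h' := exists_le_rk t η h
  unfold pr
  rw [dif_pos h']
  exact h'.choose_spec.2

end basic

section tree

variable {T : Type u} [PartialOrder T]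

theorem IsTree.comp_le (hT : IsTree T) {t a b : T} (ha : a ≤ t) (hb : b ≤ t) : a ≤ b ∨ b ≤ a := by
  rcases ha.eq_or_lt with rfl | ha
  · exact Or.inr hb
  · rcases hb.eq_or_lt with rfl | hb
    · exact Or.inl ha.le
    · exact hT.comp t a b ha hb

variable [WellFoundedLT T]

theorem IsTree.eq_of_rk (hT : IsTree T) {t a b : T} (ha : a ≤ t) (hb : b ≤ t) (h : rk a = rk b) :
    a = b := by
  rcases hT.comp_le ha hb with h1 | h1
  · rcases h1.eq_or_lt with h2 | h2
    · exact h2
    · exact absurd h (rk_lt h2).ne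
  · rcases h1.eq_or_lt with h2 | h2
    · exact h2.symm
    · exact absurd h (rk_lt h2).ne'

theorem IsTree.lt_of_rk (hT : IsTree T) {t a b : T} (ha : a ≤ t) (hb : b ≤ t) (h : rk a < rk b) :
    a < b := by
  rcases hT.comp_le ha hb with h1 | h1
  · rcases h1.eq_or_lt with h2 | h2
    · subst h2; exact absurd h (lt_irrefl _)
    · exact h2
  · exact absurd h (rk_le h1).not_gt

theorem IsTree.pr_eq (hT : IsTree T) {t s : T} {η : Ordinal} (h : s ≤ t) (hs : rk s = η) :
    pr t η = s := by
  have : η ≤ rk t := hs ▸ rk_le h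
  exact hT.eq_of_rk (pr_le t η) h ((rk_pr this).trans hs.symm)

/-- order isomorphism of the predecessors of `t` with the rank -/
noncomputable def IsTree.iso (hT : IsTree T) (t : T) : Iio t ≃o Iio (rk t) where
  toFun s := ⟨rk s.1, rk_lt s.2⟩
  invFun η := ⟨pr t η.1, by
    refine lt_of_le_of_ne (pr_le _ _) fun h => ?_
    have := rk_pr (t := t) (η := η.1) (le_of_lt η.2)
    rw [h] at this
    exact (ne_of_lt (show η.1 < rk t from η.2)) this.symm⟩
  left_inv s := Subtype.ext (hT.pr_eq (le_of_lt s.2) rfl)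
  right_inv η := Subtype.ext (rk_pr (le_of_lt η.2))
  map_rel_iff' := by
    intro a b
    constructor
    · intro h
      change rk a.1 ≤ rk b.1 at h
      show a.1 ≤ b.1
      rcases h.eq_or_lt with h | h
      · exact (hT.eq_of_rk (le_of_lt a.2) (le_of_lt b.2) h).le
      · exact (hT.lt_of_rk (le_of_lt a.2) (le_of_lt b.2) h).le
    · intro h
      exact rk_le (show a.1 ≤ b.1 from h)

theorem self_le_of_strictMono {α : Ordinal.{u}} (g : Iio α → Ordinal.{u}) (hg : StrictMono g) :
    ∀ x : Iio α, x.1 ≤ g x := by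
  intro x
  induction x using WellFoundedLT.induction with
  | ind x ih =>
    by_contra h
    push Not at h
    have h1 := ih ⟨g x, h.trans x.2⟩ h
    have h2 := hg (show (⟨g x, h.trans x.2⟩ : Iio α) < x from h)
    exact absurd h2 h1.not_gt

theorem ord_le_of_iso {α β : Ordinal.{u}} (e : Iio α ≃o Iio β) : α ≤ β := by
  by_contra h
  push Not at h
  have h1 := self_le_of_strictMono (fun x => (e x).1) (fun a b hab => e.strictMono hab) ⟨β, h⟩
  exact absurd (show ((e ⟨β, h⟩).1 : Ordinal.{u}) < β from (e ⟨β, h⟩).2) h1.not_gt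

theorem ord_eq_of_iso {α β : Ordinal.{u}} (e : Iio α ≃o Iio β) : α = β :=
  le_antisymm (ord_le_of_iso e) (ord_le_of_iso e.symm)

theorem IsTree.hasHeight_iff (hT : IsTree T) (t : T) (α : Ordinal.{u}) : HasHeight t α ↔ rk t = α := by
  constructor
  · rintro ⟨e⟩
    exact ord_eq_of_iso ((hT.iso t).symm.trans e)
  · rintro rfl
    exact ⟨hT.iso t⟩

end tree

/-- a strictly increasing family indexed by the ordinals below `lam.ord` gives a branch of
order type `lam` -/
theorem branch_of_strictMono {T : Type u} [PartialOrder T] {lam : Cardinal.{u}}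
    (g : Iio lam.ord → T) (hg : StrictMono g) :
    ∃ C : Set T, IsChain (· ≤ ·) C ∧ Nonempty (C ≃o Iio lam.ord) := by
  refine ⟨range g, ?_, ?_⟩
  · rintro _ ⟨a, rfl⟩ _ ⟨b, rfl⟩ _
    rcases le_total a b with h | h
    · exact Or.inl (hg.monotone h)
    · exact Or.inr (hg.monotone h)
  · refine ⟨(OrderIso.ofSurjective (OrderEmbedding.ofMapLEIff (fun a => (⟨g a, a, rfl⟩ : range g)) ?_) ?_).symm⟩
    · intro a b
      exact hg.le_iff_le
    · rintro ⟨_, a, rfl⟩
      exact ⟨a, rfl⟩

theorem strictMono_of_branch {T : Type u} [PartialOrder T] {lam : Cardinal.{u}}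
    (h : ∃ C : Set T, IsChain (· ≤ ·) C ∧ Nonempty (C ≃o Iio lam.ord)) :
    ∃ g : Iio lam.ord → T, StrictMono g := by
  obtain ⟨C, -, ⟨e⟩⟩ := h
  exact ⟨fun a => (e.symm a).1, fun a b hab => e.symm.strictMono hab⟩

/-- level preserving reduction -/
theorem exists_level_preserving {S T : Type u} [PartialOrder S] [PartialOrder T]
    [WellFoundedLT S] [WellFoundedLT T] (hT : IsTree T) (f : S → T)
    (hf : StrictMono f) : ∃ g : S → T, StrictMono g ∧ ∀ s, rk (g s) = rk s := by
  have h1 : ∀ s, rk s ≤ rk (f s) := by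
    intro s
    induction s using WellFoundedLT.induction with
    | ind s ih =>
      by_contra hlt
      push Not at hlt
      obtain ⟨r, hr, hr'⟩ := exists_lt_rk s _ hlt
      have h2 := ih r hr
      have h3 := rk_lt (hf hr)
      rw [hr'] at h2
      exact absurd h3 h2.not_gt
  refine ⟨fun s => pr (f s) (rk s), ?_, fun s => rk_pr (h1 s)⟩
  intro a b hab
  refine hT.lt_of_rk (t := f b) ((pr_le _ _).trans (hf hab).le) (pr_le _ _) ?_
  rw [rk_pr (h1 a), rk_pr (h1 b)]
  exact rk_lt hab

end Pool.Agent.Work.MP_d2308b_lc.H94
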